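import Pool.Agent.NWF.HDef

/-!
# NWF: a basis `1, w` of the ring of integers of a quadratic field

PROOF. `𝓞 K` is a free `ℤ`-module of rank 2. In a basis `b₀, b₁` one has `1 = x b₀ + y b₁`, and
`x, y` are coprime, as a common divisor is a unit of `𝓞 K` (take norms). With `u x + v y = 1` put
`w = - v b₀ + u b₁`.
-/

open NumberField Ideal

namespace NWF

variable {K : Type*} [Field K] [NumberField K]

/-- `1, w` is a `ℤ`-basis of `𝓞 K` -/
structure QB (w : 𝓞 K) : Prop where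
  gen : ∀ z : 𝓞 K, ∃ x y : ℤ, z = x + y * w
  ind : ∀ x y : ℤ, (x : 𝓞 K) + y * w = 0 → x = 0 ∧ y = 0

theorem exists_QB (hK : Module.finrank ℚ K = 2) : ∃ w : 𝓞 K, QB w := by
  have hr : Module.finrank ℤ (𝓞 K) = 2 := by rw [RingOfIntegers.rank, hK]
  obtain ⟨b⟩ : Nonempty (Module.Basis (Fin 2) ℤ (𝓞 K)) :=
    ⟨(Module.finBasis ℤ (𝓞 K)).reindex (finCongr hr)⟩
  have hrep : ∀ z : 𝓞 K, z = (b.repr z 0 : 𝓞 K) * b 0 + (b.repr z 1 : 𝓞 K) * b 1 := by
    intro z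
    have h := b.sum_repr z
    rw [Fin.sum_univ_two] at h
    simp only [zsmul_eq_mul] at h
    exact h.symm
  have hind : ∀ x y : ℤ, (x : 𝓞 K) * b 0 + (y : 𝓞 K) * b 1 = 0 → x = 0 ∧ y = 0 := by
    intro x y h
    have hl := Fintype.linearIndependent_iff.1 b.linearIndependent ![x, y] (by
      rw [Fin.sum_univ_two]
      simpa using h)
    exact ⟨by simpa using hl 0, by simpa using hl 1⟩
  set x : ℤ := b.repr 1 0 with hx
  set y : ℤ := b.repr 1 1 with hy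
  have h1 : (1 : 𝓞 K) = (x : 𝓞 K) * b 0 + (y : 𝓞 K) * b 1 := hrep 1
  have hcop : IsCoprime x y := by
    rw [Int.isCoprime_iff_gcd_eq_one]
    set d : ℤ := (Int.gcd x y : ℤ) with hd
    obtain ⟨x', hx'⟩ : d ∣ x := Int.gcd_dvd_left ..
    obtain ⟨y', hy'⟩ : d ∣ y := Int.gcd_dvd_right ..
    have h2 : (1 : 𝓞 K) = (algebraMap ℤ (𝓞 K) d) * ((x' : 𝓞 K) * b 0 + (y' : 𝓞 K) * b 1) := by
      rw [h1, hx', hy']
      simp only [eq_intCast]
      push_cast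
      ring
    have h3 := congrArg (Algebra.norm ℤ) h2
    rw [map_one, map_mul, Algebra.norm_algebraMap, hr] at h3
    have h4 : IsUnit d := by
      refine IsUnit.of_mul_eq_one (d * Algebra.norm ℤ ((x' : 𝓞 K) * b 0 + (y' : 𝓞 K) * b 1)) ?_
      rw [h3]; ring
    have h5 := Int.isUnit_iff_natAbs_eq.1 h4
    rw [hd, Int.natAbs_natCast] at h5
    exact h5
  obtain ⟨u, v, huv⟩ := hcop
  refine ⟨-(v : 𝓞 K) * b 0 + (u : 𝓞 K) * b 1, ⟨fun z => ?_, fun X Y h => ?_⟩⟩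
  · set p : ℤ := b.repr z 0
    set q : ℤ := b.repr z 1
    have hz : z = (p : 𝓞 K) * b 0 + (q : 𝓞 K) * b 1 := hrep z
    refine ⟨p * u + q * v, -p * y + q * x, ?_⟩
    have hc : (u : 𝓞 K) * x + v * y = 1 := by exact_mod_cast congrArg (fun n : ℤ => (n : 𝓞 K)) huv
    have h6 : ((p * u + q * v : ℤ) : 𝓞 K) + ((-p * y + q * x : ℤ) : 𝓞 K) *
        (-(v : 𝓞 K) * b 0 + (u : 𝓞 K) * b 1) =
        ((p * u + q * v : ℤ) : 𝓞 K) * (1 - ((x : 𝓞 K) * b 0 + (y : 𝓞 K) * b 1)) +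
        ((u : 𝓞 K) * x + v * y) * ((p : 𝓞 K) * b 0 + (q : 𝓞 K) * b 1) := by
      push_cast
      ring
    rw [h6, ← h1, hc, hz]
    ring
  · have h6 : (X : 𝓞 K) + Y * (-(v : 𝓞 K) * b 0 + (u : 𝓞 K) * b 1) =
        (X : 𝓞 K) * (1 - ((x : 𝓞 K) * b 0 + (y : 𝓞 K) * b 1)) +
        (((X * x - Y * v : ℤ) : 𝓞 K) * b 0 + ((X * y + Y * u : ℤ) : 𝓞 K) * b 1) := by
      push_cast
      ring
    rw [h6, ← h1, sub_self, mul_zero, zero_add] at h
    obtain ⟨e1, e2⟩ := hind _ _ h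
    constructor
    · calc X = X * (u * x + v * y) := by rw [huv, mul_one]
        _ = u * (X * x - Y * v) + v * (X * y + Y * u) := by ring
        _ = 0 := by rw [e1, e2]; ring
    · calc Y = Y * (u * x + v * y) := by rw [huv, mul_one]
        _ = x * (X * y + Y * u) - y * (X * x - Y * v) := by ring
        _ = 0 := by rw [e1, e2]; ring

end NWF
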