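import Pool.Agent.NWF.HDef

/-!
# NWF: the statement of the arithmetic part

`alpha`, `el` are those of the final statement. `Comb` is the conclusion of the arithmetic part:
`M L(ψ, s)` is a combination, with coefficients in `ℤ[α] = ℤ + m 𝓞`, of the partial L-series of the
ideals `A ℤ + α ℤ`.
-/

open NumberField

namespace NWF

noncomputable section

/-- `α = (B + √(B² - 4 n)) / 2` -/
def alpha (B : ℤ) (n : ℕ) : ℂ := ((B : ℂ) + ((√(4 * n - B ^ 2) : ℝ) : ℂ) * Complex.I) / 2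

/-- the element `m.1 + m.2 τ` of the lattice `ℤ + ℤ τ` -/
def el (τ : ℂ) (m : ℤ × ℤ) : ℂ := (m.1 : ℂ) + (m.2 : ℂ) * τ

/-- the conclusion of the arithmetic part, for a character `ψ` and an embedding `σ` -/
def Comb {K : Type} [Field K] [NumberField K] {m : ℕ} (ψ : HC K m) (σ : K →+* ℂ) : Prop :=
  ∃ (B : ℤ) (n : ℕ) (κ : ℕ → ℤ × ℤ) (M : ℕ), B ^ 2 < 4 * n ∧ M ≠ 0 ∧
    (∀ z : ℂ, (∃ w : 𝓞 K, InO m w ∧ σ w = z) ↔ ∃ x : ℤ × ℤ, z = el (alpha B n) x) ∧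
    ∀ (s : ℂ) (l : ℂ), 2 < s.re →
      HasSum (fun I : Ideal (𝓞 K) => σ (ψ.psi I) / (Ideal.absNorm I : ℂ) ^ s) l →
      HasSum (fun m : ℤ × ℤ => ∑ A ∈ n.divisors, el (alpha B n) (κ A) *
        ((starRingEnd ℂ) (A * m.1 + m.2 * alpha B n) ^ 2 /
          ((‖A * m.1 + m.2 * alpha B n‖ ^ 2 / A : ℝ) : ℂ) ^ s)) (M * l)

end

end NWF
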