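import Pool.Agent.NWF.HDef

/-!
# NWF: ring classes

`Eqv m I J`: the ideals `I`, `J` are in the same ring class modulo `m`. `Inv m I Q`: `I Q = (z)`
with `z` in the order `ℤ + m 𝓞` prime to `m`. `IsReps m Q`: the `Q j` are representatives of the
ring classes.
-/

set_option linter.unusedSectionVars false

namespace NWF

open NumberField

variable {K : Type*} [Field K] [NumberField K]

/-- the ring class equivalence -/
def Eqv (m : ℕ) (I J : Ideal (𝓞 K)) : Prop := ∃ x y : 𝓞 K, InO m x ∧ InO m y ∧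
  Cop m (Ideal.span {x}) ∧ Cop m (Ideal.span {y}) ∧ Ideal.span {x} * I = Ideal.span {y} * J

/-- `I` and `Q` are in inverse ring classes -/
def Inv (m : ℕ) (I Q : Ideal (𝓞 K)) : Prop := ∃ z : 𝓞 K, InO m z ∧
  Cop m (Ideal.span {z}) ∧ I * Q = Ideal.span {z}

/-- representatives of the ring classes -/
def IsReps {J : Type*} (m : ℕ) (Q : J → Ideal (𝓞 K)) : Prop :=
  (∀ j, Cop m (Q j)) ∧ ∀ I, Cop m I → ∃! j, Inv m I (Q j)

theorem cop_one (m : ℕ) : Cop m (Ideal.span {(1 : 𝓞 K)}) := by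
  rw [cop_span_iff]
  exact ⟨one_ne_zero, isCoprime_one_left⟩

theorem span_mul (x y : 𝓞 K) : Ideal.span {x * y} = Ideal.span {x} * Ideal.span {y} := by
  rw [Ideal.span_singleton_mul_span_singleton]

theorem cop_span_mul {m : ℕ} {x y : 𝓞 K} :
    Cop m (Ideal.span {x * y}) ↔ Cop m (Ideal.span {x}) ∧ Cop m (Ideal.span {y}) := by
  rw [span_mul, cop_mul]

theorem Eqv.refl (m : ℕ) (I : Ideal (𝓞 K)) : Eqv m I I :=
  ⟨1, 1, InO.one m, InO.one m, cop_one m, cop_one m, rfl⟩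

theorem Eqv.symm {m : ℕ} {I J : Ideal (𝓞 K)} (h : Eqv m I J) : Eqv m J I := by
  obtain ⟨x, y, hx, hy, cx, cy, h⟩ := h
  exact ⟨y, x, hy, hx, cy, cx, h.symm⟩

theorem Eqv.mul {m : ℕ} {I J I' J' : Ideal (𝓞 K)} (h : Eqv m I J) (h' : Eqv m I' J') :
    Eqv m (I * I') (J * J') := by
  obtain ⟨x, y, hx, hy, cx, cy, h⟩ := h
  obtain ⟨x', y', hx', hy', cx', cy', h'⟩ := h'
  refine ⟨x * x', y * y', hx.mul hx', hy.mul hy', cop_span_mul.2 ⟨cx, cx'⟩,
    cop_span_mul.2 ⟨cy, cy'⟩, ?_⟩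
  rw [span_mul, span_mul]
  calc _ = (Ideal.span {x} * I) * (Ideal.span {x'} * I') := by ring
    _ = (Ideal.span {y} * J) * (Ideal.span {y'} * J') := by rw [h, h']
    _ = _ := by ring

theorem Eqv.trans {m : ℕ} {I J L : Ideal (𝓞 K)} (h : Eqv m I J) (h' : Eqv m J L) :
    Eqv m I L := by
  obtain ⟨x, y, hx, hy, cx, cy, h⟩ := h
  obtain ⟨x', y', hx', hy', cx', cy', h'⟩ := h'
  refine ⟨x * x', y * y', hx.mul hx', hy.mul hy', cop_span_mul.2 ⟨cx, cx'⟩,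
    cop_span_mul.2 ⟨cy, cy'⟩, ?_⟩
  rw [span_mul, span_mul]
  calc _ = (Ideal.span {x} * I) * Ideal.span {x'} := by ring
    _ = Ideal.span {y} * (Ideal.span {x'} * J) := by rw [h]; ring
    _ = _ := by rw [h']; ring

theorem eqv_span_mul {m : ℕ} {x : 𝓞 K} (hx : InO m x) (cx : Cop m (Ideal.span {x}))
    (I : Ideal (𝓞 K)) : Eqv m (Ideal.span {x} * I) I :=
  ⟨1, x, InO.one m, hx, cop_one m, cx, by rw [Ideal.span_singleton_one, Ideal.top_mul]⟩

theorem Inv.symm {m : ℕ} {I Q : Ideal (𝓞 K)} (h : Inv m I Q) : Inv m Q I := by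
  obtain ⟨z, hz, cz, h⟩ := h
  exact ⟨z, hz, cz, by rw [mul_comm, h]⟩

theorem Inv.cop {m : ℕ} {I Q : Ideal (𝓞 K)} (h : Inv m I Q) : Cop m I ∧ Cop m Q := by
  obtain ⟨z, hz, cz, h⟩ := h
  rw [← h] at cz
  exact cop_mul.1 cz

theorem Inv.eqv {m : ℕ} {I Q Q' : Ideal (𝓞 K)} (h : Inv m I Q) (h' : Inv m I Q') :
    Eqv m Q Q' := by
  have hI := h.cop.1.1
  obtain ⟨z, hz, cz, h⟩ := h
  obtain ⟨z', hz', cz', h'⟩ := h'
  refine ⟨z', z, hz', hz, cz', cz, ?_⟩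
  apply mul_left_cancel₀ hI
  calc I * (Ideal.span {z'} * Q) = (I * Q) * Ideal.span {z'} := by ring
    _ = (I * Q') * Ideal.span {z} := by rw [h, h']; ring
    _ = _ := by ring

theorem Inv.congr {m : ℕ} {I Q Q' : Ideal (𝓞 K)} (h : Inv m I Q) (h' : Eqv m Q Q') :
    Inv m I Q' := by
  obtain ⟨z, hz, cz, h⟩ := h
  obtain ⟨x, y, hx, hy, cx, cy, h'⟩ := h'
  have e : Ideal.span {y} * (I * Q') = Ideal.span {x * z} := by
    rw [span_mul, ← h]
    calc _ = I * (Ideal.span {y} * Q') := by ring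
      _ = _ := by rw [← h']; ring
  have h1 : Ideal.span {y} ∣ Ideal.span {x * z} := ⟨_, e.symm⟩
  rw [Ideal.dvd_span_singleton, Ideal.mem_span_singleton] at h1
  obtain ⟨t, ht⟩ := h1
  have hxz := hx.mul hz
  rw [ht] at hxz e
  have cyt : Cop m (Ideal.span {y * t}) := by
    rw [← ht]
    exact cop_span_mul.2 ⟨cx, cz⟩
  refine ⟨t, InO.div hy (cop_span_iff.1 cy).2 hxz, (cop_span_mul.1 cyt).2, ?_⟩
  rw [span_mul] at e
  exact mul_left_cancel₀ cy.1 e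

/-- a nonzero element of `I` congruent to `1` modulo `m` -/
theorem exists_mem_one {m : ℕ} {I : Ideal (𝓞 K)} (hI : Cop m I) :
    ∃ z ∈ I, z ≠ 0 ∧ (m : 𝓞 K) ∣ z - 1 := by
  obtain ⟨h0, hc⟩ := hI
  rw [Ideal.isCoprime_iff_exists] at hc
  obtain ⟨i, hi, t, ht, h⟩ := hc
  rw [Ideal.mem_span_singleton] at ht
  by_cases hi0 : i = 0
  · rw [hi0, zero_add] at h
    rw [h] at ht
    obtain ⟨z, hz, hz0⟩ := Submodule.exists_mem_ne_zero_of_ne_bot h0
    exact ⟨z, hz, hz0, ht.trans (one_dvd _)⟩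
  · refine ⟨i, hi, hi0, ?_⟩
    have e : i - 1 = -t := by rw [← h]; ring
    rw [e]
    exact dvd_neg.2 ht

theorem cop_of_dvd_sub_one {m : ℕ} {z : 𝓞 K} (h0 : z ≠ 0) (h : (m : 𝓞 K) ∣ z - 1) :
    InO m z ∧ Cop m (Ideal.span {z}) := by
  refine ⟨⟨1, by rwa [Int.cast_one]⟩, cop_span_iff.2 ⟨h0, ?_⟩⟩
  obtain ⟨t, ht⟩ := h
  exact ⟨1, -t, by rw [← sub_eq_zero, ← sub_eq_zero.2 ht]; ring⟩

/-- the inverse class -/
theorem exists_inv_ideal {m : ℕ} {I : Ideal (𝓞 K)} (hI : Cop m I) : ∃ Q, Inv m I Q := by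
  obtain ⟨z, hz, hz0, h⟩ := exists_mem_one hI
  rw [← Ideal.dvd_span_singleton] at hz
  obtain ⟨Q, hQ⟩ := hz
  obtain ⟨h1, h2⟩ := cop_of_dvd_sub_one hz0 h
  exact ⟨Q, z, h1, h2, hQ.symm⟩

theorem IsReps.congr {J : Type*} {m : ℕ} {Q Q' : J → Ideal (𝓞 K)} (h : IsReps m Q)
    (h' : ∀ j, Eqv m (Q j) (Q' j)) (hc : ∀ j, Cop m (Q' j)) : IsReps m Q' := by
  refine ⟨hc, fun I hI => ?_⟩
  obtain ⟨j, hj, hu⟩ := h.2 I hI
  exact ⟨j, hj.congr (h' j), fun k hk => hu k (hk.congr (h' k).symm)⟩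

theorem IsReps.exists_eqv {J : Type*} {m : ℕ} {Q : J → Ideal (𝓞 K)} (h : IsReps m Q)
    {I : Ideal (𝓞 K)} (hI : Cop m I) : ∃ j, Eqv m I (Q j) := by
  obtain ⟨I', hI'⟩ := exists_inv_ideal hI
  obtain ⟨j, hj, -⟩ := h.2 I' hI'.cop.2
  exact ⟨j, hI'.symm.eqv hj⟩

theorem IsReps.inj {J : Type*} {m : ℕ} {Q : J → Ideal (𝓞 K)} (h : IsReps m Q) {j k : J}
    (hjk : Eqv m (Q j) (Q k)) : j = k := by
  obtain ⟨I, hI⟩ := exists_inv_ideal (h.1 j)
  obtain ⟨l, -, hl⟩ := h.2 I hI.cop.2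
  rw [hl j hI.symm, hl k (hI.symm.congr hjk)]

/-! ### existence of a finite system of representatives -/

/-- the ring class setoid on the ideals prime to `m` -/
def clsSetoid (K : Type*) [Field K] [NumberField K] (m : ℕ) :
    Setoid {I : Ideal (𝓞 K) // Cop m I} where
  r I J := Eqv m I.1 J.1
  iseqv := ⟨fun I => Eqv.refl m I.1, fun h => h.symm, fun h h' => h.trans h'⟩

theorem finite_cls (m : ℕ) (hm : m ≠ 0) : Finite (Quotient (clsSetoid K m)) := by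
  classical
  -- for every ideal class containing an ideal prime to `m` an ideal prime to `m` in the inverse
  have h1 : ∀ c : ClassGroup (𝓞 K), ∃ R : Ideal (𝓞 K), Cop m R ∧
      ∀ (I : Ideal (𝓞 K)) (hI : Cop m I),
        ClassGroup.mk0 ⟨I, mem_nonZeroDivisors_of_ne_zero hI.1⟩ = c →
        ∃ z : 𝓞 K, Cop m (Ideal.span {z}) ∧ I * R = Ideal.span {z} := by
    intro c
    by_cases hc : ∃ (I : Ideal (𝓞 K)) (hI : Cop m I),
        ClassGroup.mk0 ⟨I, mem_nonZeroDivisors_of_ne_zero hI.1⟩ = c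
    · obtain ⟨I0, hI0, hc0⟩ := hc
      obtain ⟨R, hR⟩ := exists_inv_ideal hI0
      refine ⟨R, hR.cop.2, fun I hI hIc => ?_⟩
      obtain ⟨x, y, hx, hy, hxy⟩ := (ClassGroup.mk0_eq_mk0_iff (I := _) (J := _)).1
        (hIc.trans hc0.symm)
      simp only at hxy
      obtain ⟨t, ht, ct, hRt⟩ := hR
      have e : Ideal.span {x} * (I * R) = Ideal.span {y * t} := by
        rw [span_mul, ← hRt, ← mul_assoc, hxy, mul_assoc]
      have h1 : Ideal.span {x} ∣ Ideal.span {y * t} := ⟨_, e.symm⟩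
      rw [Ideal.dvd_span_singleton, Ideal.mem_span_singleton] at h1
      obtain ⟨u, hu⟩ := h1
      rw [hu, span_mul] at e
      have hx0 : Ideal.span {x} ≠ 0 := by
        rw [Ideal.zero_eq_bot, Ne, Ideal.span_singleton_eq_bot]
        exact hx
      have e2 := mul_left_cancel₀ hx0 e
      refine ⟨u, ?_, e2⟩
      rw [← e2]
      exact cop_mul.2 ⟨hI, (cop_mul.1 (hRt ▸ ct)).2⟩
    · refine ⟨1, cop_top m, fun I hI hIc => absurd ⟨I, hI, hIc⟩ hc⟩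
  choose R hR1 hR2 using h1
  have h2 : ∀ I : {I : Ideal (𝓞 K) // Cop m I}, ∃ z : 𝓞 K, Cop m (Ideal.span {z}) ∧
      I.1 * R (ClassGroup.mk0 ⟨I.1, mem_nonZeroDivisors_of_ne_zero I.2.1⟩) = Ideal.span {z} :=
    fun I => hR2 _ I.1 I.2 rfl
  choose Z hZ1 hZ2 using h2
  have hq : (Ideal.span {(m : 𝓞 K)}) ≠ ⊥ := by
    rw [Ne, Ideal.span_singleton_eq_bot]
    exact_mod_cast hm
  have : Finite (𝓞 K ⧸ Ideal.span {(m : 𝓞 K)}) := Ideal.finiteQuotientOfFreeOfNeBot _ hq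
  let q : {I : Ideal (𝓞 K) // Cop m I} → ClassGroup (𝓞 K) × (𝓞 K ⧸ Ideal.span {(m : 𝓞 K)}) :=
    fun I => (ClassGroup.mk0 ⟨I.1, mem_nonZeroDivisors_of_ne_zero I.2.1⟩,
      Ideal.Quotient.mk _ (Z I))
  have hqe : ∀ I J, q I = q J → Eqv m I.1 J.1 := by
    intro I J h
    have ha := (Prod.ext_iff.1 h).1
    have hb := (Prod.ext_iff.1 h).2
    simp only [q] at ha hb
    rw [Ideal.Quotient.eq, Ideal.mem_span_singleton] at hb
    have hI := hZ2 I
    have hJ := hZ2 J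
    rw [← ha] at hJ
    set R0 := R (ClassGroup.mk0 ⟨I.1, mem_nonZeroDivisors_of_ne_zero I.2.1⟩) with hR0
    have hR0' : R0 ≠ 0 := (hR1 _).1
    have e : Ideal.span {Z J} * I.1 = Ideal.span {Z I} * J.1 := by
      apply mul_right_cancel₀ hR0'
      calc Ideal.span {Z J} * I.1 * R0 = Ideal.span {Z J} * (I.1 * R0) := by ring
        _ = Ideal.span {Z I} * (J.1 * R0) := by rw [hI, hJ]; ring
        _ = _ := by ring
    obtain ⟨v, hv1, hv2⟩ := exists_inv (cop_span_iff.1 (hZ1 J)).2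
    -- a nonzero representative of the inverse
    obtain ⟨w, hw0, hw2⟩ : ∃ w : 𝓞 K, w ≠ 0 ∧ (m : 𝓞 K) ∣ w * Z J - 1 := by
      by_cases hv0 : v = 0
      · rw [hv0, zero_mul, zero_sub, dvd_neg] at hv2
        exact ⟨1, one_ne_zero, hv2.trans (one_dvd _)⟩
      · exact ⟨v, hv0, hv2⟩
    have hw3 : (m : 𝓞 K) ∣ w * Z I - 1 := by
      have e' : w * Z I - 1 = (w * Z J - 1) + (Z I - Z J) * w := by ring
      rw [e']
      exact dvd_add hw2 (hb.mul_right _)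
    have hJ0 := (cop_span_iff.1 (hZ1 J)).1
    have hI0 := (cop_span_iff.1 (hZ1 I)).1
    obtain ⟨p1, p2⟩ := cop_of_dvd_sub_one (mul_ne_zero hw0 hJ0) hw2
    obtain ⟨p3, p4⟩ := cop_of_dvd_sub_one (mul_ne_zero hw0 hI0) hw3
    refine ⟨w * Z J, w * Z I, p1, p3, p2, p4, ?_⟩
    rw [span_mul, span_mul, mul_assoc, e, mul_assoc]
  refine Finite.of_injective (fun c : Quotient (clsSetoid K m) => q c.out) ?_
  intro a b hab
  have h3 : Eqv m a.out.1 b.out.1 := hqe _ _ hab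
  rw [← Quotient.out_eq a, ← Quotient.out_eq b]
  exact Quotient.sound h3

/-- there is a finite system of representatives -/
theorem exists_reps (K : Type*) [Field K] [NumberField K] (m : ℕ) (hm : m ≠ 0) :
    ∃ (r : ℕ) (Q : Fin r → Ideal (𝓞 K)), IsReps m Q := by
  have := finite_cls (K := K) m hm
  obtain ⟨r, ⟨e⟩⟩ := Finite.exists_equiv_fin (Quotient (clsSetoid K m))
  refine ⟨r, fun i => (e.symm i).out.1, fun i => (e.symm i).out.2, fun I hI => ?_⟩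
  obtain ⟨I', hI'⟩ := exists_inv_ideal hI
  have hI'c := hI'.cop.2
  let c : Quotient (clsSetoid K m) := Quotient.mk _ ⟨I', hI'c⟩
  have hc : Eqv m c.out.1 I' := Quotient.mk_out (s := clsSetoid K m) ⟨I', hI'c⟩
  refine ⟨e c, ?_, fun k hk => ?_⟩
  · simp only [Equiv.symm_apply_apply]
    exact hI'.congr hc.symm
  · have h1 : Eqv m (e.symm k).out.1 c.out.1 := (hk.eqv hI').trans hc.symm
    have h2 : e.symm k = c := by
      rw [← Quotient.out_eq (e.symm k), ← Quotient.out_eq c]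
      exact Quotient.sound h1
    rw [← h2, Equiv.apply_symm_apply]

end NWF
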