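import Pool.Agent.NWF.HDef

/-!
# NWF/Conj: complex conjugation of an imaginary quadratic field
-/

namespace NWF

open NumberField Module

variable {K : Type*} [Field K] [NumberField K]

open scoped Classical in
/-- the embeddings of a quadratic field, one of which is not real -/
theorem embs (hK : finrank ℚ K = 2) (σ : K →+* ℂ) (hs : ∃ x, (σ x).im ≠ 0) :
    ∃ φ ψ : K →ₐ[ℚ] ℂ, φ ≠ ψ ∧ (∀ x, φ x = σ x) ∧ (∀ x, ψ x = (starRingEnd ℂ) (σ x)) ∧
      (Finset.univ : Finset (K →ₐ[ℚ] ℂ)) = {φ, ψ} := by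
  classical
  set φ : K →ₐ[ℚ] ℂ := σ.toRatAlgHom with hφ
  set ψ : K →ₐ[ℚ] ℂ := ((starRingEnd ℂ).comp σ).toRatAlgHom with hψ
  have h1 : ∀ x, φ x = σ x := fun x => rfl
  have h2 : ∀ x, ψ x = (starRingEnd ℂ) (σ x) := fun x => rfl
  have hne : φ ≠ ψ := by
    intro h
    obtain ⟨x, hx⟩ := hs
    apply hx
    have := congrArg Complex.im (congrArg (fun f : K →ₐ[ℚ] ℂ => f x) h)
    simp only [h1, h2, Complex.conj_im] at this
    linarith
  refine ⟨φ, ψ, hne, h1, h2, ?_⟩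
  symm
  rw [← Finset.card_eq_iff_eq_univ, Finset.card_pair hne, AlgHom.card ℚ K ℂ, hK]

/-- complex conjugation on `K` and on `𝓞 K` -/
theorem exists_conj (hK : finrank ℚ K = 2) (σ : K →+* ℂ) (hs : ∃ x, (σ x).im ≠ 0) :
    ∃ (c : K ≃+* K) (c' : 𝓞 K ≃+* 𝓞 K), (∀ x, σ (c x) = (starRingEnd ℂ) (σ x)) ∧
      ∀ z, ((c' z : 𝓞 K) : K) = c z := by
  classical
  obtain ⟨φ, ψ, hne, h1, h2, hu⟩ := embs hK σ hs
  have hσ : Function.Injective σ := σ.injective
  have hc : ∀ x, σ (algebraMap ℚ K (Algebra.trace ℚ K x) - x) = (starRingEnd ℂ) (σ x) := by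
    intro x
    have h3 := trace_eq_sum_embeddings (K := ℚ) ℂ (x := x)
    rw [hu, Finset.sum_pair hne, h1, h2] at h3
    rw [map_sub]
    have h4 : σ (algebraMap ℚ K (Algebra.trace ℚ K x)) = algebraMap ℚ ℂ (Algebra.trace ℚ K x) := by
      rw [← h1]
      exact φ.commutes _
    rw [h4, h3]
    ring
  let c : K ≃+* K :=
    { toFun := fun x => algebraMap ℚ K (Algebra.trace ℚ K x) - x
      invFun := fun x => algebraMap ℚ K (Algebra.trace ℚ K x) - x
      left_inv := fun x => by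
        apply hσ
        rw [hc, hc, Complex.conj_conj]
      right_inv := fun x => by
        apply hσ
        rw [hc, hc, Complex.conj_conj]
      map_mul' := fun x y => by
        apply hσ
        rw [hc, map_mul σ, map_mul σ, hc, hc, map_mul]
      map_add' := fun x y => by
        apply hσ
        rw [hc, map_add σ, map_add σ, hc, hc, map_add] }
  exact ⟨c, RingOfIntegers.mapRingEquiv c, hc, fun z => rfl⟩

/-- the norm of an element -/
theorem norm_mul_conj (hK : finrank ℚ K = 2) (σ : K →+* ℂ) (hs : ∃ x, (σ x).im ≠ 0) (z : 𝓞 K) :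
    ((Algebra.norm ℤ z : ℤ) : ℂ) = σ z * (starRingEnd ℂ) (σ z) := by
  classical
  obtain ⟨φ, ψ, hne, h1, h2, hu⟩ := embs hK σ hs
  have h3 := Algebra.norm_eq_prod_embeddings ℚ ℂ (z : K)
  rw [hu, Finset.prod_pair hne, h1, h2] at h3
  rw [← h3, ← Algebra.coe_norm_int z]
  simp

theorem absNorm_span_sq (hK : finrank ℚ K = 2) (σ : K →+* ℂ) (hs : ∃ x, (σ x).im ≠ 0) (z : 𝓞 K) :
    (Ideal.absNorm (Ideal.span {z}) : ℝ) = ‖σ z‖ ^ 2 := by
  have h := norm_mul_conj hK σ hs z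
  rw [Complex.mul_conj, Complex.normSq_eq_norm_sq] at h
  have h1 : ((Algebra.norm ℤ z : ℤ) : ℝ) = ‖σ z‖ ^ 2 := by exact_mod_cast h
  rw [Ideal.absNorm_span_singleton, ← h1, Nat.cast_natAbs, Int.cast_abs, h1, abs_of_nonneg]
  positivity

/-! ### conjugate ideals -/

theorem absNorm_map (c' : 𝓞 K ≃+* 𝓞 K) (I : Ideal (𝓞 K)) :
    Ideal.absNorm (I.map c') = Ideal.absNorm I := by
  rw [Ideal.absNorm_apply, Ideal.absNorm_apply, Submodule.cardQuot_apply, Submodule.cardQuot_apply]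
  exact (Nat.card_congr (Ideal.quotientEquiv I (I.map c') c' rfl).toEquiv).symm

/-- `I Ī = (N(I))` -/
theorem mul_map_conj (hK : finrank ℚ K = 2) (σ : K →+* ℂ) (hs : ∃ x, (σ x).im ≠ 0)
    (c' : 𝓞 K ≃+* 𝓞 K) (hc : ∀ z : 𝓞 K, σ ((c' z : 𝓞 K) : K) = (starRingEnd ℂ) (σ z))
    (I : Ideal (𝓞 K)) : I * I.map c' = Ideal.span {(Ideal.absNorm I : 𝓞 K)} := by
  have hσ : Function.Injective fun z : 𝓞 K => σ (z : K) := fun x y h =>
    RingOfIntegers.ext (σ.injective h)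
  by_cases hI : I = ⊥
  · subst hI
    simp
  -- `(N(I)) ≤ I Ī`
  have h1 : Ideal.span {(Ideal.absNorm I : 𝓞 K)} ≤ I * I.map c' := by
    rw [Ideal.span_singleton_le_iff_mem]
    have h2 : ((Ideal.absNorm I : ℤ) : 𝓞 K) ∈ Ideal.map (algebraMap ℤ (𝓞 K)) (Ideal.relNorm ℤ I) := by
      rw [Ideal.relNorm_int]
      have := Ideal.mem_map_of_mem (algebraMap ℤ (𝓞 K))
        (Ideal.mem_span_singleton_self ((Ideal.absNorm I : ℕ) : ℤ))
      simpa using this
    rw [Ideal.map_relNorm] at h2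
    have h3 : Ideal.span ((algebraMap ℤ (𝓞 K)) ∘ Algebra.intNorm ℤ (𝓞 K) '' (I : Set (𝓞 K))) ≤
        I * I.map c' := by
      rw [Ideal.span_le]
      rintro _ ⟨r, hr, rfl⟩
      have h4 : ((algebraMap ℤ (𝓞 K)) ∘ Algebra.intNorm ℤ (𝓞 K)) r = r * c' r := by
        apply hσ
        simp only [Function.comp_apply]
        have e1 : σ ((r * c' r : 𝓞 K) : K) = σ (r : K) * σ ((c' r : 𝓞 K) : K) := by
          rw [← map_mul]
          rfl
        rw [Algebra.intNorm_eq_norm, e1, hc, ← norm_mul_conj hK σ hs r]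
        simp
      rw [h4]
      exact Ideal.mul_mem_mul hr (Ideal.mem_map_of_mem c' hr)
    have h5 := h3 h2
    simpa using h5
  obtain ⟨J, hJ⟩ := Ideal.dvd_iff_le.2 h1
  have hN : Ideal.absNorm I ≠ 0 := by
    rw [Ne, Ideal.absNorm_eq_zero_iff]
    exact hI
  have h6 := congrArg Ideal.absNorm hJ
  rw [map_mul, map_mul, absNorm_map, Ideal.absNorm_span_singleton] at h6
  have h7 : (Algebra.norm ℤ ((Ideal.absNorm I : ℕ) : 𝓞 K)).natAbs =
      Ideal.absNorm I * Ideal.absNorm I := by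
    have h8 := norm_mul_conj hK σ hs ((Ideal.absNorm I : ℕ) : 𝓞 K)
    have h9 : Algebra.norm ℤ ((Ideal.absNorm I : ℕ) : 𝓞 K) =
        (Ideal.absNorm I : ℤ) * Ideal.absNorm I := by
      have h10 : ((Algebra.norm ℤ ((Ideal.absNorm I : ℕ) : 𝓞 K) : ℤ) : ℂ) =
          (((Ideal.absNorm I : ℤ) * Ideal.absNorm I : ℤ) : ℂ) := by
        rw [h8]
        simp
      exact_mod_cast h10
    rw [h9, Int.natAbs_mul]
    simp
  rw [h7] at h6
  have h8 : Ideal.absNorm J = 1 := by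
    have h9 : Ideal.absNorm I * Ideal.absNorm I * 1 =
        Ideal.absNorm I * Ideal.absNorm I * Ideal.absNorm J := by rw [mul_one]; exact h6
    exact (Nat.eq_of_mul_eq_mul_left (Nat.mul_pos (Nat.pos_of_ne_zero hN) (Nat.pos_of_ne_zero hN))
      h9).symm
  rw [Ideal.absNorm_eq_one_iff] at h8
  rw [hJ, h8, Ideal.mul_top]

omit [NumberField K] in
theorem map_inv (c' : 𝓞 K ≃+* 𝓞 K) (J : Ideal (𝓞 K)) : (J.map c').map c'.symm = J :=
  Ideal.map_of_equiv c'

omit [NumberField K] in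
theorem cop_map {m : ℕ} (c' : 𝓞 K ≃+* 𝓞 K) {I : Ideal (𝓞 K)} (h : Cop m I) :
    Cop m (I.map c') := by
  refine ⟨fun h0 => h.1 ?_, ?_⟩
  · rw [Ideal.zero_eq_bot, Ideal.map_eq_bot_iff_of_injective c'.injective] at h0
    exact h0
  · have h1 := h.2
    rw [Ideal.isCoprime_iff_exists] at h1 ⊢
    obtain ⟨i, hi, j, hj, hij⟩ := h1
    refine ⟨c' i, Ideal.mem_map_of_mem c' hi, c' j, ?_, by rw [← map_add, hij, map_one]⟩
    rw [Ideal.mem_span_singleton] at hj ⊢
    have := map_dvd c' hj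
    rwa [map_natCast] at this

/-- `ψ(Ī)` is the conjugate of `ψ(I)` -/
theorem conj_psi (hK : finrank ℚ K = 2) (σ : K →+* ℂ) (hs : ∃ x, (σ x).im ≠ 0)
    (c' : 𝓞 K ≃+* 𝓞 K) (hc : ∀ z : 𝓞 K, σ ((c' z : 𝓞 K) : K) = (starRingEnd ℂ) (σ z))
    {m : ℕ} (h : HC K m) (hn : ∀ I, Cop m I → ‖σ (h.psi I)‖ = Ideal.absNorm I)
    (I : Ideal (𝓞 K)) : σ (h.psi (I.map c')) = (starRingEnd ℂ) (σ (h.psi I)) := by
  have hinv : ∀ J : Ideal (𝓞 K), (J.map c').map c'.symm = J := map_inv c'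
  by_cases hI : Cop m I
  · have h1 := mul_map_conj hK σ hs c' hc I
    have hcop : Cop m (Ideal.span {((Ideal.absNorm I : ℕ) : 𝓞 K)}) := by
      rw [← h1]
      exact cop_mul.2 ⟨hI, cop_map c' hI⟩
    have h2 := h.val ((Ideal.absNorm I : ℕ) : 𝓞 K) (by
      have := InO.int (K := K) m (Ideal.absNorm I : ℤ)
      simpa using this) hcop
    have h3 := congrArg (fun J => σ (h.psi J)) h1
    simp only [map_mul] at h3
    rw [h2, map_pow] at h3
    have h4 : σ (h.psi I) ≠ 0 := by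
      rw [Ne, map_eq_zero]
      exact (h.ne I).2 hI
    have h5 : σ (h.psi I) * (starRingEnd ℂ) (σ (h.psi I)) = (Ideal.absNorm I : ℂ) ^ 2 := by
      rw [Complex.mul_conj, Complex.normSq_eq_norm_sq, hn I hI]
      push_cast
      ring
    apply mul_left_cancel₀ h4
    rw [h3, h5]
    simp
  · have h0 : h.psi I = 0 := by
      by_contra hne
      exact hI ((h.ne I).1 hne)
    have h0' : h.psi (I.map c') = 0 := by
      by_contra hne
      have := cop_map c'.symm ((h.ne _).1 hne)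
      rw [hinv] at this
      exact hI this
    rw [h0, h0', map_zero, map_zero]

/-- conjugation as a permutation of the ideals -/
def conjE (c' : 𝓞 K ≃+* 𝓞 K) : Ideal (𝓞 K) ≃ Ideal (𝓞 K) where
  toFun I := I.map c'
  invFun I := I.map c'.symm
  left_inv I := map_inv c' I
  right_inv I := by
    have := map_inv c'.symm I
    rwa [RingEquiv.symm_symm] at this

section series

variable (hK : finrank ℚ K = 2) (σ : K →+* ℂ) (hs : ∃ x, (σ x).im ≠ 0)
  {m : ℕ} (h : HC K m) (hn : ∀ I, Cop m I → ‖σ (h.psi I)‖ = Ideal.absNorm I)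

include hK hs hn

/-- the series with `ψ̄` has the same sum -/
theorem hasSum_conj {s l : ℂ}
    (hl : HasSum (fun I : Ideal (𝓞 K) => σ (h.psi I) * (Ideal.absNorm I : ℂ) ^ (-s)) l) :
    HasSum (fun I : Ideal (𝓞 K) => (starRingEnd ℂ) (σ (h.psi I)) *
      (Ideal.absNorm I : ℂ) ^ (-s)) l := by
  obtain ⟨c, c', hc, hc'⟩ := exists_conj hK σ hs
  have hc2 : ∀ z : 𝓞 K, σ ((c' z : 𝓞 K) : K) = (starRingEnd ℂ) (σ z) := fun z => by
    rw [hc', hc]
  have h1 := (conjE c').hasSum_iff.2 hl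
  refine h1.congr_fun fun I => ?_
  simp only [Function.comp_apply]
  show _ = σ (h.psi (I.map c')) * (Ideal.absNorm (I.map c') : ℂ) ^ (-s)
  rw [conj_psi hK σ hs c' hc2 h hn, absNorm_map]

/-- the series is real for real `s` -/
theorem hasSum_real {s : ℝ} {l : ℂ}
    (hl : HasSum (fun I : Ideal (𝓞 K) => σ (h.psi I) * (Ideal.absNorm I : ℂ) ^ (-(s : ℂ))) l) :
    l.im = 0 := by
  have h1 := hasSum_conj hK σ hs h hn hl
  have h2 : HasSum (fun I : Ideal (𝓞 K) => (starRingEnd ℂ) (σ (h.psi I) *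
      (Ideal.absNorm I : ℂ) ^ (-(s : ℂ)))) ((starRingEnd ℂ) l) :=
    Complex.hasSum_conj.2 (by simpa using hl)
  have h3 : (starRingEnd ℂ) l = l := by
    refine h2.unique (h1.congr_fun fun I => ?_)
    rw [map_mul]
    congr 1
    have h4 : (Ideal.absNorm I : ℂ) ^ (-(s : ℂ)) = (((Ideal.absNorm I : ℝ) ^ (-s) : ℝ) : ℂ) := by
      rw [Complex.ofReal_cpow (Nat.cast_nonneg _)]
      push_cast
      rfl
    rw [h4, Complex.conj_ofReal]
  exact Complex.conj_eq_iff_im.1 h3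

end series

end NWF
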