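import Pool.Agent.NWF.Cls

/-!
# NWF: systems of ideals in the ring classes containing one generator of the order
-/

open NumberField Ideal

namespace NWF

variable {K : Type*} [Field K] [NumberField K]

/-- `Q` is a system of representatives of the ring classes modulo `m`, all containing `α`, where
`ℤ[α] = ℤ + m 𝓞 K`, with different norms -/
structure Sys (m : ℕ) (α : 𝓞 K) {r : ℕ} (Q : Fin r → Ideal (𝓞 K)) : Prop where
  reps : IsReps m Q
  gen : ∀ z : 𝓞 K, InO m z ↔ ∃ x y : ℤ, z = x + y * α
  mem : ∀ j, α ∈ Q j
  inj : Function.Injective fun j => absNorm (Q j)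

end NWF
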