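import Pool.Agent.NWF.PrimRep
import Pool.Agent.NWF.Sys

/-!
# NWF: existence of the systems

PROOF. Reps `J_i` (`exists_reps`), inverse classes `J_i'` (`exists_inv_ideal`). By induction choose with
`exists_prim` ideals `Q_i`: `Inv m J_i' Q_i`, `b_i + w ∈ Q_i`, norms pairwise coprime and prime to `m`.
CRT in `ℤ`: an integer `b` with `b ≡ m b_i mod A_i` for all `i`. `α = b + m w`:
`α = m (b_i + w) + (b - m b_i) ∈ Q_i` since `A_i ∈ Q_i` (`Ideal.absNorm_mem`). `gen`: `InO m z` iff
`z = x + m y w` (`QB`) iff `z = (x - y b) + y α`. The norms are different: coprime and equal means both are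
`1`, so `Q_i = Q_j = ⊤`, so `i = j`.
-/

set_option linter.unusedSectionVars false

open NumberField Ideal

namespace NWF

variable {K : Type*} [Field K] [NumberField K]

theorem exists_family {w : 𝓞 K} (hw : QB w) {m : ℕ} (hm : m ≠ 0) :
    ∀ (r : ℕ) (J : Fin r → Ideal (𝓞 K)), (∀ i, Cop m (J i)) →
      ∃ (Q : Fin r → Ideal (𝓞 K)) (b : Fin r → ℤ), (∀ i, Inv m (J i) (Q i)) ∧
        (∀ i, (b i : 𝓞 K) + w ∈ Q i) ∧
        ∀ i j, i ≠ j → (absNorm (Q i)).Coprime (absNorm (Q j)) := by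
  intro r
  induction r with
  | zero =>
    intro J _
    exact ⟨fun i => i.elim0, fun i => i.elim0, fun i => i.elim0, fun i => i.elim0,
      fun i => i.elim0⟩
  | succ r ih =>
    intro J hJ
    obtain ⟨Q, b, h1, h2, h3⟩ := ih (fun i => J i.succ) (fun i => hJ _)
    have hne : ∀ i, absNorm (Q i) ≠ 0 := by
      intro i h0
      rw [Ideal.absNorm_eq_zero_iff] at h0
      exact (h1 i).cop.2.1 h0
    have hcop : ∀ i, m.Coprime (absNorm (Q i)) := fun i =>
      (coprime_absNorm (h1 i).cop.2.1 (h1 i).cop.2.2).symm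
    obtain ⟨Q0, b0, g1, g2, g3⟩ := exists_prim hw hm (M := ∏ i, absNorm (Q i))
      (Finset.prod_ne_zero_iff.2 fun i _ => hne i)
      (Nat.Coprime.prod_right fun i _ => hcop i) (J 0) (hJ 0)
    have g4 : ∀ i, (absNorm Q0).Coprime (absNorm (Q i)) := fun i =>
      Nat.Coprime.coprime_dvd_right
        (Finset.dvd_prod_of_mem (fun i => absNorm (Q i)) (Finset.mem_univ i)) g2
    refine ⟨Fin.cons Q0 Q, Fin.cons b0 b, ?_, ?_, ?_⟩
    · intro i
      refine Fin.cases ?_ (fun i => ?_) i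
      · simpa using g1
      · simpa using h1 i
    · intro i
      refine Fin.cases ?_ (fun i => ?_) i
      · simpa using g3
      · simpa using h2 i
    · intro i j
      refine Fin.cases ?_ (fun i => ?_) i
      · refine Fin.cases ?_ (fun j => ?_) j
        · intro h
          exact absurd rfl h
        · intro _
          simpa using g4 j
      · refine Fin.cases ?_ (fun j => ?_) j
        · intro _
          simpa using (g4 i).symm
        · intro h
          simpa using h3 i j (fun e => h (by rw [e]))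

theorem exists_Sys (hK : Module.finrank ℚ K = 2) (σ : K →+* ℂ) (hσ : ∃ x : K, (σ x).im ≠ 0)
    {m : ℕ} (hm : m ≠ 0) : ∃ (r : ℕ) (α : 𝓞 K) (Q : Fin r → Ideal (𝓞 K)),
      Sys m α Q ∧ 0 < (σ α).im := by
  -- a basis with positive imaginary part
  obtain ⟨w, hw, hw0⟩ : ∃ w : 𝓞 K, QB w ∧ 0 < (σ w).im := by
    obtain ⟨w, hw⟩ := exists_QB hK
    have hne : (σ w).im ≠ 0 := by
      intro h0
      obtain ⟨x, hx⟩ := hσ
      obtain ⟨a, b, hb, hab⟩ := IsFractionRing.div_surjective (A := 𝓞 K) x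
      have him : ∀ z : 𝓞 K, (σ z).im = 0 := by
        intro z
        obtain ⟨p, q, rfl⟩ := hw.gen z
        push_cast
        simp [h0]
      apply hx
      rw [← hab, map_div₀]
      have ha := him a
      have hb' := him b
      rw [Complex.div_im]
      have ha2 : (σ ((algebraMap (𝓞 K) K) a)).im = 0 := ha
      have hb2 : (σ ((algebraMap (𝓞 K) K) b)).im = 0 := hb'
      rw [ha2, hb2]
      simp
    rcases lt_or_gt_of_ne hne with h | h
    · refine ⟨-w, ⟨fun z => ?_, fun x y hxy => ?_⟩, ?_⟩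
      · obtain ⟨x, y, hz⟩ := hw.gen z
        refine ⟨x, -y, ?_⟩
        rw [hz]
        push_cast
        ring
      · have := hw.ind x (-y) (by rw [← hxy]; push_cast; ring)
        exact ⟨this.1, neg_eq_zero.1 this.2⟩
      · push_cast
        simp
        linarith
    · exact ⟨w, hw, h⟩
  obtain ⟨r, J, hJ⟩ := exists_reps K m hm
  have hinv : ∀ i, ∃ I, Inv m (J i) I := fun i => exists_inv_ideal (hJ.1 i)
  choose J' hJ' using hinv
  obtain ⟨Q, b, h1, h2, h3⟩ := exists_family hw hm r J' (fun i => (hJ' i).cop.2)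
  have hne : ∀ i, absNorm (Q i) ≠ 0 := by
    intro i h0
    rw [Ideal.absNorm_eq_zero_iff] at h0
    exact (h1 i).cop.2.1 h0
  have hreps : IsReps m Q :=
    hJ.congr (fun i => (hJ' i).symm.eqv (h1 i)) (fun i => (h1 i).cop.2)
  -- the Chinese remainder theorem
  obtain ⟨k, hk⟩ : ∃ k : ℤ, ∀ i, ((absNorm (Q i) : ℕ) : ℤ) ∣ k - m * b i := by
    obtain ⟨k, hk⟩ := Nat.chineseRemainderOfFinset
      (fun i => (b i % ((absNorm (Q i) : ℕ) : ℤ)).toNat) (fun i => absNorm (Q i)) Finset.univ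
      (fun i _ => hne i) (fun i _ j _ hij => h3 i j hij)
    refine ⟨m * k, fun i => ?_⟩
    have h4 := hk i (Finset.mem_univ i)
    have hpos : (0 : ℤ) < ((absNorm (Q i) : ℕ) : ℤ) := by
      exact_mod_cast Nat.pos_of_ne_zero (hne i)
    have h5 : ((absNorm (Q i) : ℕ) : ℤ) ∣ b i % ((absNorm (Q i) : ℕ) : ℤ) - k := by
      rw [← Int.toNat_of_nonneg (Int.emod_nonneg (b i) hpos.ne')]
      exact (Nat.modEq_iff_dvd).1 h4
    have h6 : ((absNorm (Q i) : ℕ) : ℤ) ∣ b i % ((absNorm (Q i) : ℕ) : ℤ) - b i :=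
      ⟨-(b i / ((absNorm (Q i) : ℕ) : ℤ)), by
        linear_combination Int.emod_add_mul_ediv (b i) ((absNorm (Q i) : ℕ) : ℤ)⟩
    have e : m * (k : ℤ) - m * b i =
        m * ((b i % ((absNorm (Q i) : ℕ) : ℤ) - b i) -
          (b i % ((absNorm (Q i) : ℕ) : ℤ) - k)) := by ring
    rw [e]
    exact (dvd_sub h6 h5).mul_left _
  refine ⟨r, (k : 𝓞 K) + m * w, Q, ⟨hreps, ?_, ?_, ?_⟩, ?_⟩
  · intro z
    constructor
    · rintro ⟨n, t, ht⟩
      obtain ⟨x, y, hxy⟩ := hw.gen t
      refine ⟨n + m * x - y * k, y, ?_⟩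
      push_cast
      linear_combination ht + (m : 𝓞 K) * hxy
    · rintro ⟨x, y, rfl⟩
      refine ⟨x + y * k, y * w, ?_⟩
      push_cast
      ring
  · intro j
    obtain ⟨t, ht⟩ := hk j
    have e : (k : 𝓞 K) + m * w = m * ((b j : 𝓞 K) + w) + (absNorm (Q j) : 𝓞 K) * t := by
      have : ((k - m * b j : ℤ) : 𝓞 K) = (((absNorm (Q j) : ℕ) : ℤ) * t : ℤ) := by rw [ht]
      push_cast at this
      linear_combination this
    rw [e]
    exact (Q j).add_mem ((Q j).mul_mem_left _ (h2 j))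
      ((Q j).mul_mem_right _ (Ideal.absNorm_mem _))
  · intro i j hij
    by_contra hne'
    have h4 := h3 i j hne'
    simp only at hij
    rw [← hij, Nat.coprime_self] at h4
    have e1 : Q i = ⊤ := Ideal.absNorm_eq_one_iff.1 h4
    rw [hij] at h4
    have e2 : Q j = ⊤ := Ideal.absNorm_eq_one_iff.1 h4
    apply hne'
    apply hreps.inj
    rw [e1, e2]
    exact Eqv.refl m _
  · push_cast
    simp
    positivity

end NWF
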