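import Pool.Agent.NWF.Sys

/-!
# NWF: the lattices `Q_j ∩ (ℤ + m 𝓞 K)`

PROOF. Let `A = absNorm (Q j)`. `<=`: `A ∈ Q j` (`Ideal.absNorm_mem`), `α ∈ Q j`, and
`Sys.gen`. `=>`: `z = x + y α` (`Sys.gen`), so the integer `x` is in `Q j`. Claim: an integer in `Q j` is
divisible by `A`. The ring `𝓞 K ⧸ Q j` is finite with `A` elements (`Ideal.absNorm_apply`), and the map
`ℤ → 𝓞 K ⧸ Q j` is surjective: for `u ∈ 𝓞 K`, `m u ∈ ℤ + m 𝓞 K` so `m u = x' + y' α ≡ x' mod Q j`, and `m`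
is invertible modulo `Q j` with inverse an integer (`A` is prime to `m`, `A ∈ Q j`), so `u` is congruent to
an integer. So `1` generates the additive group `𝓞 K ⧸ Q j`, its order is `A`.
-/

set_option linter.unusedSectionVars false

open NumberField Ideal

namespace NWF

variable {K : Type*} [Field K] [NumberField K]

theorem dvd_of_int_mem {m : ℕ} {α : 𝓞 K} {Q : Ideal (𝓞 K)} (hQ : Cop m Q)
    (hgen : ∀ z : 𝓞 K, InO m z → ∃ x y : ℤ, z = x + y * α) (hα : α ∈ Q) {x : ℤ}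
    (hx : (x : 𝓞 K) ∈ Q) : ((absNorm Q : ℕ) : ℤ) ∣ x := by
  have : Finite (𝓞 K ⧸ Q) := Ideal.finiteQuotientOfFreeOfNeBot _ hQ.1
  have hcard : absNorm Q = Nat.card (𝓞 K ⧸ Q) := by
    rw [Ideal.absNorm_apply, Submodule.cardQuot_apply]
  -- an integer inverse of `m` modulo `Q`
  obtain ⟨v, hv⟩ : ∃ v : ℤ, (v : 𝓞 K) * m - 1 ∈ Q := by
    have : Fintype (𝓞 K ⧸ Q) := Fintype.ofFinite _
    have hu : IsUnit (Ideal.Quotient.mk Q (m : 𝓞 K)) := by
      obtain ⟨i, hi, t, ht, hit⟩ := Ideal.isCoprime_iff_exists.1 hQ.2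
      obtain ⟨a, ha⟩ := Ideal.mem_span_singleton.1 ht
      refine IsUnit.of_mul_eq_one (Ideal.Quotient.mk Q a) ?_
      rw [← map_mul, ← map_one (Ideal.Quotient.mk Q), Ideal.Quotient.eq, ← ha, ← hit]
      have : t - (i + t) = -i := by ring
      rw [this]
      exact Q.neg_mem hi
    obtain ⟨k, hk0, hk⟩ := (isOfFinOrder_iff_pow_eq_one).1
      (isOfFinOrder_of_finite hu.unit)
    have hk' : (Ideal.Quotient.mk Q (m : 𝓞 K)) ^ k = 1 := by
      have := congrArg Units.val hk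
      simpa using this
    refine ⟨(m : ℤ) ^ (k - 1), ?_⟩
    rw [← Ideal.Quotient.eq]
    push_cast
    rw [← pow_succ, Nat.sub_add_cancel hk0, map_pow, hk', map_one]
  -- every element is congruent to an integer
  have hsurj : ∀ u : 𝓞 K, ∃ n : ℤ, u - n ∈ Q := by
    intro u
    obtain ⟨a, b, hab⟩ := hgen ((m : 𝓞 K) * u) ⟨0, by simp⟩
    refine ⟨v * a, ?_⟩
    have e : u - ((v * a : ℤ) : 𝓞 K) = -u * ((v : 𝓞 K) * m - 1) + (v * b) * α := by
      push_cast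
      linear_combination (v : 𝓞 K) * hab
    rw [e]
    exact Q.add_mem (Q.mul_mem_left _ hv) (Q.mul_mem_left _ hα)
  -- `1` generates
  have hgen1 : ∀ y : 𝓞 K ⧸ Q, y ∈ AddSubgroup.zmultiples (1 : 𝓞 K ⧸ Q) := by
    intro y
    obtain ⟨u, rfl⟩ := Ideal.Quotient.mk_surjective y
    obtain ⟨n, hn⟩ := hsurj u
    refine AddSubgroup.mem_zmultiples_iff.2 ⟨n, ?_⟩
    rw [zsmul_one]
    symm
    have := (Ideal.Quotient.eq (I := Q)).2 hn
    rw [this]
    simp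
  have hord : addOrderOf (1 : 𝓞 K ⧸ Q) = absNorm Q := by
    rw [hcard]
    exact addOrderOf_eq_card_of_forall_mem_zmultiples hgen1
  rw [← hord, addOrderOf_dvd_iff_zsmul_eq_zero, zsmul_one]
  have : Ideal.Quotient.mk Q (x : 𝓞 K) = 0 := Ideal.Quotient.eq_zero_iff_mem.2 hx
  simpa using this

theorem Sys.mem_iff {m r : ℕ} {α : 𝓞 K} {Q : Fin r → Ideal (𝓞 K)} (hS : Sys m α Q) (j : Fin r)
    (z : 𝓞 K) :
    (z ∈ Q j ∧ InO m z) ↔ ∃ x y : ℤ, z = (absNorm (Q j) : 𝓞 K) * x + y * α := by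
  constructor
  · rintro ⟨h1, h2⟩
    obtain ⟨x, y, rfl⟩ := (hS.gen z).1 h2
    have hx : (x : 𝓞 K) ∈ Q j := by
      have := (Q j).sub_mem h1 ((Q j).mul_mem_left (y : 𝓞 K) (hS.mem j))
      simpa using this
    obtain ⟨t, ht⟩ := dvd_of_int_mem (hS.reps.1 j) (fun z hz => (hS.gen z).1 hz) (hS.mem j) hx
    refine ⟨t, y, ?_⟩
    rw [ht]
    push_cast
    ring
  · rintro ⟨x, y, rfl⟩
    refine ⟨(Q j).add_mem ((Q j).mul_mem_right _ (Ideal.absNorm_mem _))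
      ((Q j).mul_mem_left _ (hS.mem j)), (hS.gen _).2 ⟨(absNorm (Q j) : ℤ) * x, y, ?_⟩⟩
    push_cast
    ring

end NWF
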