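import Pool.Agent.NWF.Dec
import Pool.Agent.NWF.Conj
import Pool.Agent.NWF.CDefs
import Pool.Agent.NWF.ExSys
import Pool.Agent.NWF.Lat

/-!
# NWF: the arithmetic part

`M L(ψ, s)` is a combination, with coefficients in `ℤ[α] = ℤ + m 𝓞`, of the partial L-series of the
ideals `A ℤ + α ℤ`.
-/

set_option linter.unusedSectionVars false

namespace NWF

open NumberField

/-- an integral multiple, with an integer -/
theorem exists_den {K : Type*} [Field K] [NumberField K] (x : K) :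
    ∃ (d : ℕ) (z : 𝓞 K), d ≠ 0 ∧ (z : K) = d * x := by
  have ha : IsAlgebraic ℤ x :=
    (IsFractionRing.isAlgebraic_iff ℤ ℚ K).2 (Algebra.IsAlgebraic.isAlgebraic x)
  obtain ⟨y, hy, hi⟩ := ha.exists_integral_multiple
  refine ⟨y.natAbs, ⟨(y.natAbs : K) * x, ?_⟩, Int.natAbs_ne_zero.2 hy, rfl⟩
  rw [mem_integralClosure_iff]
  rw [zsmul_eq_mul] at hi
  rcases Int.natAbs_eq y with h | h
  · rw [h] at hi
    simpa using hi
  · rw [h] at hi
    have := hi.neg
    simpa using this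

/-- a root `τ` with positive imaginary part of `X² - B X + n` is `alpha B n` -/
theorem eq_alpha {τ : ℂ} {B : ℤ} {n : ℕ} (him : 0 < τ.im)
    (h1 : τ + (starRingEnd ℂ) τ = B) (h2 : τ * (starRingEnd ℂ) τ = n) :
    B ^ 2 < 4 * (n : ℤ) ∧ τ = alpha B n := by
  have e1 : 2 * τ.re = B := by
    have := congrArg Complex.re h1
    simp at this
    linarith
  have e2 : τ.re ^ 2 + τ.im ^ 2 = n := by
    have := congrArg Complex.re h2
    simp at this
    nlinarith
  have e3 : (4 * (n : ℝ) - (B : ℝ) ^ 2) = (2 * τ.im) ^ 2 := by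
    rw [← e1, ← e2]
    ring
  constructor
  · have h3 : (B : ℝ) ^ 2 < 4 * (n : ℝ) := by
      have : 0 < (2 * τ.im) ^ 2 := by positivity
      linarith
    exact_mod_cast h3
  · rw [alpha, e3, Real.sqrt_sq (by positivity)]
    apply Complex.ext
    · simp
      linarith
    · simp

variable {K : Type} [Field K] [NumberField K]

theorem el_zero (τ : ℂ) : el τ 0 = 0 := by
  simp [el]

theorem comb (hK : Module.finrank ℚ K = 2) (σ : K →+* ℂ) (hs : ∃ x, (σ x).im ≠ 0) {m : ℕ}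
    (hm : 0 < m) (ψ : HC K m) : Comb ψ σ := by
  classical
  have hm0 : m ≠ 0 := hm.ne'
  -- embeddings
  have hσ : ¬ ComplexEmbedding.IsReal σ := by
    intro h
    obtain ⟨x, hx⟩ := hs
    apply hx
    have h1 := congrArg (fun f : K →+* ℂ => (f x).im) h
    simp only [ComplexEmbedding.conjugate_coe_eq, Complex.conj_im] at h1
    linarith
  set σ' : K →+* ℂ := ComplexEmbedding.conjugate σ with hσ'def
  have hσ'x : ∀ x, σ' x = (starRingEnd ℂ) (σ x) := fun x => rfl
  have hσ' : ¬ ComplexEmbedding.IsReal σ' := by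
    intro h
    obtain ⟨x, hx⟩ := hs
    apply hx
    have h1 := congrArg (fun f : K →+* ℂ => (f x).im) h
    simp only [ComplexEmbedding.conjugate_coe_eq, hσ'x, Complex.conj_im] at h1
    linarith
  obtain ⟨r, α, Q, hS, him⟩ := exists_Sys hK σ hs hm0
  -- the quadratic equation of `α`
  have hαO : InO m α := (hS.gen α).2 ⟨0, 1, by simp⟩
  obtain ⟨u, B, hB⟩ := (hS.gen (α * α)).1 (hαO.mul hαO)
  have hBσ : σ (α : K) * σ (α : K) = u + B * σ (α : K) := by
    have h1 : σ ((α * α : 𝓞 K) : K) = σ (((u : 𝓞 K) + (B : 𝓞 K) * α : 𝓞 K) : K) := by rw [hB]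
    have e1 : ((α * α : 𝓞 K) : K) = (α : K) * α := map_mul (algebraMap (𝓞 K) K) α α
    have e2 : (((u : 𝓞 K) + (B : 𝓞 K) * α : 𝓞 K) : K) = (u : K) + (B : K) * α := by
      push_cast
      rfl
    rw [e1, e2, map_mul, map_add, map_mul, map_intCast, map_intCast] at h1
    exact h1
  set τ : ℂ := σ (α : K) with hτ
  set n : ℕ := Ideal.absNorm (Ideal.span {α}) with hn
  have hnτ : τ * (starRingEnd ℂ) τ = n := by
    rw [Complex.mul_conj, Complex.normSq_eq_norm_sq, ← absNorm_span_eq hK σ hσ α, ← hn]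
    simp
  have hBτ : τ + (starRingEnd ℂ) τ = B := by
    have h1 := congrArg (starRingEnd ℂ) hBσ
    rw [map_mul, map_add, map_mul, map_intCast, map_intCast] at h1
    have h3 : τ - (starRingEnd ℂ) τ ≠ 0 := by
      intro h0
      have := congrArg Complex.im h0
      simp at this
      linarith
    apply mul_left_cancel₀ h3
    linear_combination hBσ - h1
  obtain ⟨hBn, hτα⟩ := eq_alpha him hBτ hnτ
  have hn0 : n ≠ 0 := by
    rintro h0
    rw [h0] at hBn
    have := sq_nonneg B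
    simp at hBn
    linarith
  -- the norms
  set A : Fin r → ℕ := fun j => Ideal.absNorm (Q j) with hA
  have hAn : ∀ j, A j ∣ n := fun j => by
    apply Ideal.absNorm_dvd_absNorm_of_le
    rw [Ideal.span_singleton_le_iff_mem]
    exact hS.mem j
  have hA0 : ∀ j, A j ≠ 0 := fun j h0 => hn0 (by
    have := hAn j
    rw [h0] at this
    exact Nat.eq_zero_of_zero_dvd this)
  have hAinj : Function.Injective A := hS.inj
  -- denominators
  choose d z hd0 hz using fun j => exists_den (ψ.psi (Q j))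
  set P : ℕ := ∏ j, d j * (A j) ^ 2 with hP
  have hP0 : P ≠ 0 := Finset.prod_ne_zero_iff.2 fun j _ => mul_ne_zero (hd0 j)
    (pow_ne_zero 2 (hA0 j))
  have hdiv : ∀ j, ∃ c : ℕ, P = d j * (A j) ^ 2 * c := fun j =>
    Finset.dvd_prod_of_mem (fun j => d j * (A j) ^ 2) (Finset.mem_univ j)
  choose c hc using hdiv
  have hk : ∀ j, ∃ x : ℤ × ℤ, (m : 𝓞 K) * ((c j : 𝓞 K) * z j) = (x.1 : 𝓞 K) + x.2 * α := by
    intro j
    obtain ⟨x, y, hxy⟩ := (hS.gen ((m : 𝓞 K) * ((c j : 𝓞 K) * z j))).1 ⟨0, by simp⟩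
    exact ⟨(x, y), hxy⟩
  choose κ0 hκ0 using hk
  have hel : ∀ x : ℤ × ℤ, σ ((((x.1 : 𝓞 K) + x.2 * α : 𝓞 K)) : K) = el τ x := by
    intro x
    have e2 : (((x.1 : 𝓞 K) + (x.2 : 𝓞 K) * α : 𝓞 K) : K) = (x.1 : K) + (x.2 : K) * α := by
      push_cast
      rfl
    rw [e2, map_add, map_mul, map_intCast, map_intCast, el]
  set κ : ℕ → ℤ × ℤ := Function.extend A κ0 0 with hκ
  have hκA : ∀ j, κ (A j) = κ0 j := fun j => hAinj.extend_apply κ0 0 j
  have hκ00 : ∀ a, a ∉ Set.range A → κ a = 0 := fun a ha => by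
    rw [hκ, Function.extend_apply' _ _ _ (fun h => ha h)]
    rfl
  have hσψ : ∀ j, σ' (ψ.psi (Q j)) * σ (ψ.psi (Q j)) = (A j : ℂ) ^ 2 := by
    intro j
    rw [hσ'x, mul_comm, Complex.mul_conj, Complex.normSq_eq_norm_sq,
      ψ.norm_psi hm0 hK σ hσ (hS.reps.1 j)]
    push_cast
    rfl
  have hσ'0 : ∀ j, σ' (ψ.psi (Q j)) ≠ 0 := fun j => (map_ne_zero σ').2 ((ψ.ne _).2 (hS.reps.1 j))
  -- the value of the coefficients
  have hcoef : ∀ j, el τ (κ (A j)) = ((2 * m * P : ℕ) : ℂ) / 2 * (σ' (ψ.psi (Q j)))⁻¹ := by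
    intro j
    rw [hκA, ← hel, ← hκ0]
    have e2 : (((m : 𝓞 K) * ((c j : 𝓞 K) * z j) : 𝓞 K) : K) = (m : K) * ((c j : K) * z j) := by
      push_cast
      rfl
    rw [e2, hz, map_mul, map_mul, map_mul, map_natCast, map_natCast, map_natCast]
    have h1 := hσψ j
    have h2 := hσ'0 j
    rw [eq_mul_inv_iff_mul_eq₀ h2]
    have h3 : ((P : ℕ) : ℂ) = d j * (A j : ℂ) ^ 2 * c j := by
      conv_lhs => rw [hc j]
      push_cast
      rfl
    push_cast
    rw [h3, ← h1]
    ring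
  refine ⟨B, n, κ, 2 * m * P, hBn, mul_ne_zero (mul_ne_zero two_ne_zero hm0) hP0, ?_, ?_⟩
  · -- the order
    intro x
    rw [← hτα]
    constructor
    · rintro ⟨w, hw, rfl⟩
      obtain ⟨a, b, hab⟩ := (hS.gen w).1 hw
      exact ⟨(a, b), by rw [hab]; exact hel (a, b)⟩
    · rintro ⟨y, hy⟩
      exact ⟨_, (hS.gen _).2 ⟨y.1, y.2, rfl⟩, by rw [hy]; exact hel y⟩
  · intro s l hs2 hl
    rw [← hτα]
    -- the conjugate series
    have hns : ∀ I, Cop m I → ‖σ (ψ.psi I)‖ = Ideal.absNorm I := fun I hI =>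
      ψ.norm_psi hm0 hK σ hσ hI
    have h1 : HasSum (gg σ' ψ s) l := by
      have h2 : HasSum (fun I : Ideal (𝓞 K) => σ (ψ.psi I) * (Ideal.absNorm I : ℂ) ^ (-s)) l := by
        refine hl.congr_fun fun I => ?_
        rw [Complex.cpow_neg, div_eq_mul_inv]
      refine (hasSum_conj hK σ hs ψ hns h2).congr_fun fun I => ?_
      rw [gg, Complex.cpow_neg, div_eq_mul_inv, hσ'x]
    have h2 := h1.unique (hasSum_psi hm0 hK σ' hσ' ψ hs2 hS.reps)
    -- the sum over `ℤ × ℤ`
    have h3 : ∀ j, HasSum (fun x : ℤ × ℤ => ff σ' s ((A j : 𝓞 K) * (x.1 : 𝓞 K) + x.2 * α))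
        (∑' z : UU m (Q j), ff σ' s z) := by
      intro j
      let f : ℤ × ℤ → UU m (Q j) := fun x => ⟨(A j : 𝓞 K) * (x.1 : 𝓞 K) + x.2 * α,
        (hS.mem_iff j _).2 ⟨x.1, x.2, rfl⟩⟩
      have hf : Function.Bijective f := by
        constructor
        · rintro ⟨a, b⟩ ⟨a', b'⟩ h
          have h4 : (A j : 𝓞 K) * (a : 𝓞 K) + b * α = (A j : 𝓞 K) * (a' : 𝓞 K) + b' * α :=
            congrArg Subtype.val h
          have h5 : el τ ((A j : ℤ) * a, b) = el τ ((A j : ℤ) * a', b') := by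
            have h4' : ((((A j : ℤ) * a : ℤ) : 𝓞 K) + (b : 𝓞 K) * α) =
                ((((A j : ℤ) * a' : ℤ) : 𝓞 K) + (b' : 𝓞 K) * α) := by
              push_cast
              exact h4
            rw [← hel, ← hel]
            exact congrArg (fun z : 𝓞 K => σ (z : K)) h4'
          rw [el, el] at h5
          have h6 := congrArg Complex.im h5
          simp only [Complex.add_im, Complex.mul_im, Complex.intCast_im, Complex.intCast_re,
            zero_mul, add_zero, zero_add] at h6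
          have h7 : (b : ℝ) = b' := mul_right_cancel₀ him.ne' h6
          have h8 : b = b' := by exact_mod_cast h7
          subst h8
          have h9 : ((((A j : ℤ) * a : ℤ)) : ℂ) = (((A j : ℤ) * a' : ℤ) : ℂ) := by
            exact add_right_cancel h5
          have h10 : (A j : ℤ) * a = (A j : ℤ) * a' := by exact_mod_cast h9
          have h11 : a = a' := mul_left_cancel₀ (by exact_mod_cast hA0 j) h10
          rw [h11]
        · rintro ⟨y, hy⟩
          obtain ⟨a, b, hab⟩ := (hS.mem_iff j y).1 hy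
          exact ⟨(a, b), Subtype.ext hab.symm⟩
      have h4 := ((summable_ff hK σ' hσ' hs2).subtype (UU m (Q j))).hasSum
      exact (Equiv.ofBijective f hf).hasSum_iff.2 h4
    have hffv : ∀ (j : Fin r) (x : ℤ × ℤ),
        ff σ' s ((A j : 𝓞 K) * (x.1 : 𝓞 K) + x.2 * α) =
          (starRingEnd ℂ) (A j * x.1 + x.2 * τ) ^ 2 /
            ((‖(A j : ℂ) * x.1 + x.2 * τ‖ ^ 2 : ℝ) : ℂ) ^ s := by
      intro j x
      have e2 : (((A j : 𝓞 K) * (x.1 : 𝓞 K) + (x.2 : 𝓞 K) * α : 𝓞 K) : K) =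
          (A j : K) * (x.1 : K) + (x.2 : K) * α := by
        push_cast
        rfl
      rw [ff, e2, hσ'x, map_add, map_mul, map_mul, map_natCast, map_intCast, map_intCast,
        Complex.norm_conj]
    have h4 : ∀ j, HasSum (fun x : ℤ × ℤ => el τ (κ (A j)) *
        ((starRingEnd ℂ) (A j * x.1 + x.2 * τ) ^ 2 /
          ((‖(A j : ℂ) * x.1 + x.2 * τ‖ ^ 2 / A j : ℝ) : ℂ) ^ s))
        (el τ (κ (A j)) * ((A j : ℂ) ^ s * ∑' z : UU m (Q j), ff σ' s z)) := by
      intro j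
      refine HasSum.mul_left _ ?_
      refine ((h3 j).mul_left ((A j : ℂ) ^ s)).congr_fun fun x => ?_
      rw [hffv]
      have hAj : (0 : ℝ) < A j := by exact_mod_cast Nat.pos_of_ne_zero (hA0 j)
      have e1 : (‖(A j : ℂ) * x.1 + x.2 * τ‖ ^ 2 : ℝ) =
          (‖(A j : ℂ) * x.1 + x.2 * τ‖ ^ 2 / A j) * A j := by field_simp
      have hAjs : (A j : ℂ) ^ s ≠ 0 := by
        rw [Ne, Complex.cpow_eq_zero_iff]
        intro h
        exact hA0 j (by exact_mod_cast h.1)
      conv_rhs => rw [e1]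
      rw [Complex.ofReal_mul, Complex.mul_cpow_ofReal_nonneg (by positivity) hAj.le]
      rw [Complex.ofReal_natCast]
      rw [mul_div_assoc', mul_comm ((A j : ℂ) ^ s), mul_div_mul_right _ _ hAjs]
    have h5 : HasSum (fun x : ℤ × ℤ => ∑ j, el τ (κ (A j)) *
        ((starRingEnd ℂ) (A j * x.1 + x.2 * τ) ^ 2 /
          ((‖(A j : ℂ) * x.1 + x.2 * τ‖ ^ 2 / A j : ℝ) : ℂ) ^ s))
        (∑ j, el τ (κ (A j)) * ((A j : ℂ) ^ s * ∑' z : UU m (Q j), ff σ' s z)) :=
      hasSum_sum fun j _ => h4 j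
    have h6 : ∑ j, el τ (κ (A j)) * ((A j : ℂ) ^ s * ∑' z : UU m (Q j), ff σ' s z) =
        ((2 * m * P : ℕ) : ℂ) * l := by
      rw [h2, Finset.mul_sum, Finset.mul_sum]
      refine Finset.sum_congr rfl fun j _ => ?_
      rw [hcoef, cc]
      ring
    rw [h6] at h5
    refine h5.congr_fun fun x => ?_
    -- sum over the divisors
    have hsub : Finset.univ.image A ⊆ n.divisors := by
      intro a ha
      obtain ⟨j, -, rfl⟩ := Finset.mem_image.1 ha
      exact Nat.mem_divisors.2 ⟨hAn j, hn0⟩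
    rw [← Finset.sum_subset hsub, Finset.sum_image (fun i _ j _ h => hAinj h)]
    intro a _ ha
    rw [hκ00 a, el_zero, zero_mul]
    rintro ⟨j, rfl⟩
    exact ha (Finset.mem_image_of_mem A (Finset.mem_univ j))

end NWF
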