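import Pool.Agent.NWF.Prim

/-!
# NWF: the decomposition of `L(ψ, s)`

For `Re s > 2` the L-series of `ψ` is half the sum over the ring classes `j` of
`σ(ψ(Q j))⁻¹ N(Q j)^s` times the sum of `σ(z)² |σ(z)|^(-2s)` over all elements `z` of `Q j` in the
order `ℤ + m 𝓞`.
-/

set_option linter.unusedSectionVars false

namespace NWF

open NumberField

variable {K : Type*} [Field K] [NumberField K]

/-! ### summability -/

/-- the lattice `σ(𝓞)` -/
noncomputable def lat (σ : K →+* ℂ) : Submodule ℤ ℂ :=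
  LinearMap.range ((σ.comp (algebraMap (𝓞 K) K)).toAddMonoidHom.toIntLinearMap)

theorem mem_lat (σ : K →+* ℂ) (x : ℂ) : x ∈ lat σ ↔ ∃ z : 𝓞 K, σ z = x := Iff.rfl

theorem one_le_norm (h2 : Module.finrank ℚ K = 2) (σ : K →+* ℂ)
    (hσ : ¬ ComplexEmbedding.IsReal σ) {z : 𝓞 K} (hz : z ≠ 0) : 1 ≤ ‖σ z‖ := by
  have h1 := absNorm_span_eq h2 σ hσ z
  have h3 : 1 ≤ Ideal.absNorm (Ideal.span {z}) := by
    rw [Nat.one_le_iff_ne_zero, Ne, Ideal.absNorm_eq_zero_iff, Ideal.span_singleton_eq_bot]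
    exact hz
  have h4 : (1 : ℝ) ≤ ‖σ z‖ ^ 2 := by
    rw [← h1]
    exact_mod_cast h3
  nlinarith [norm_nonneg (σ z)]

theorem discrete_lat (h2 : Module.finrank ℚ K = 2) (σ : K →+* ℂ)
    (hσ : ¬ ComplexEmbedding.IsReal σ) : DiscreteTopology (lat σ) := by
  refine DiscreteTopology.of_forall_le_norm (r := 1) one_pos ?_
  rintro ⟨x, hx⟩ hx0
  obtain ⟨z, rfl⟩ := (mem_lat σ x).1 hx
  have hz : z ≠ 0 := by
    rintro rfl
    apply hx0
    ext
    simp
  exact one_le_norm h2 σ hσ hz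

/-- the elements of `𝓞` as elements of the lattice -/
noncomputable def latEquiv (σ : K →+* ℂ) : 𝓞 K ≃ₗ[ℤ] lat σ :=
  LinearEquiv.ofInjective ((σ.comp (algebraMap (𝓞 K) K)).toAddMonoidHom.toIntLinearMap)
    (by
      intro x y h
      exact RingOfIntegers.coe_injective (σ.injective h))

theorem latEquiv_coe (σ : K →+* ℂ) (z : 𝓞 K) : ((latEquiv σ z : lat σ) : ℂ) = σ z := rfl

theorem finrank_lat (h2 : Module.finrank ℚ K = 2) (σ : K →+* ℂ) :
    Module.finrank ℤ (lat σ) = 2 := by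
  rw [← (latEquiv σ).finrank_eq, RingOfIntegers.rank, h2]

theorem norm_ff (σ : K →+* ℂ) (s : ℂ) (hs : 2 < s.re) (z : 𝓞 K) :
    ‖ff σ s z‖ = ‖σ z‖ ^ (2 - 2 * s.re) := by
  by_cases hz : z = 0
  · subst hz
    have e : ((0 : 𝓞 K) : K) = 0 := map_zero (algebraMap (𝓞 K) K)
    rw [ff, e, map_zero, norm_zero, Real.zero_rpow (by linarith)]
    simp
  · have h0 : 0 < ‖σ z‖ := by
      rw [norm_pos_iff]
      exact (map_ne_zero σ).2 (RingOfIntegers.coe_ne_zero_iff.2 hz)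
    rw [ff, norm_div, norm_pow, Complex.norm_cpow_eq_rpow_re_of_pos (by positivity),
      Real.rpow_sub h0, ← Real.rpow_natCast, ← Real.rpow_mul h0.le]
    norm_num

theorem summable_ff (h2 : Module.finrank ℚ K = 2) (σ : K →+* ℂ)
    (hσ : ¬ ComplexEmbedding.IsReal σ) {s : ℂ} (hs : 2 < s.re) : Summable (ff σ s) := by
  rw [← summable_norm_iff]
  simp only [norm_ff σ s hs]
  have := discrete_lat h2 σ hσ
  have h1 := ZLattice.summable_norm_rpow (lat σ) (2 - 2 * s.re) (by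
    rw [finrank_lat h2 σ]
    push_cast
    linarith)
  exact ((latEquiv σ).toEquiv.summable_iff).2 h1

/-! ### the decomposition -/

theorem ff_zero (σ : K →+* ℂ) (s : ℂ) : ff σ s 0 = 0 := by
  have e : ((0 : 𝓞 K) : K) = 0 := map_zero (algebraMap (𝓞 K) K)
  rw [ff, e, map_zero]
  simp

/-- the elements of `Q` in the order -/
def UU (m : ℕ) (Q : Ideal (𝓞 K)) : Set (𝓞 K) := {z | z ∈ Q ∧ InO m z}

theorem indicator_UU {m : ℕ} (hm : m ≠ 0) (σ : K →+* ℂ) (s : ℂ) (Q : Ideal (𝓞 K)) (z : 𝓞 K) :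
    (UU m Q).indicator (ff σ s) z =
      ∑ g ∈ m.divisors, {z | z ∈ Q ∧ OT m g z}.indicator (ff σ s) z := by
  by_cases hz : z ∈ UU m Q
  · rw [Set.indicator_of_mem hz]
    obtain ⟨g, hg, hO⟩ := exists_OT hm hz.2
    rw [Finset.sum_eq_single_of_mem g hg, Set.indicator_of_mem]
    · exact ⟨hz.1, hO⟩
    · intro g' _ hne
      apply Set.indicator_of_notMem
      rintro ⟨-, hO'⟩
      exact hne (hO'.unique hO)
  · rw [Set.indicator_of_notMem hz]
    symm
    refine Finset.sum_eq_zero fun g _ => Set.indicator_of_notMem ?_ _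
    rintro ⟨h1, h2⟩
    exact hz ⟨h1, h2.inO⟩

theorem indicator_TT (m : ℕ) (σ : K →+* ℂ) (s : ℂ) (Q : Ideal (𝓞 K)) :
    (TT m Q).indicator (ff σ s) = {z | z ∈ Q ∧ OT m 1 z}.indicator (ff σ s) := by
  funext z
  by_cases hz : z = 0
  · subst hz
    classical
    rw [Set.indicator_apply, Set.indicator_apply, ff_zero]
    simp
  · have : z ∈ TT m Q ↔ z ∈ {z | z ∈ Q ∧ OT m 1 z} := by
      change (z ∈ Q ∧ InO m z ∧ Cop m (Ideal.span {z})) ↔ (z ∈ Q ∧ OT m 1 z)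
      rw [OT_one_iff hz]
    by_cases h : z ∈ TT m Q
    · rw [Set.indicator_of_mem h, Set.indicator_of_mem (this.1 h)]
    · rw [Set.indicator_of_notMem h, Set.indicator_of_notMem (fun h' => h (this.2 h'))]

theorem hasSum_psi {m : ℕ} (hm : m ≠ 0) (h2 : Module.finrank ℚ K = 2) (σ : K →+* ℂ)
    (hσ : ¬ ComplexEmbedding.IsReal σ) (H : HC K m) {s : ℂ} (hs : 2 < s.re) {J : Type*}
    [Fintype J] {Q : J → Ideal (𝓞 K)} (hQ : IsReps m Q) :
    HasSum (gg σ H s) (1 / 2 * ∑ j, cc σ H s (Q j) * ∑' z : UU m (Q j), ff σ s z) := by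
  have hS := summable_ff h2 σ hσ hs
  have h1 := sum_ideals h2 σ hσ H s hQ (fun j => hS.subtype _)
  have e1 : ∑ j, cc σ H s (Q j) * ∑' z : TT m (Q j), ff σ s z = ∑ j, FF σ H s 1 (Q j) := by
    refine Finset.sum_congr rfl fun j _ => ?_
    rw [FF, ← indicator_TT, tsum_subtype (TT m (Q j)) (ff σ s)]
  have e2 : ∑ j, cc σ H s (Q j) * ∑' z : UU m (Q j), ff σ s z =
      ∑ g ∈ m.divisors, ∑ j, FF σ H s g (Q j) := by
    rw [Finset.sum_comm]
    refine Finset.sum_congr rfl fun j _ => ?_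
    rw [tsum_subtype (UU m (Q j)) (ff σ s)]
    simp only [indicator_UU hm]
    rw [Summable.tsum_finsetSum (fun g _ => hS.indicator _), Finset.mul_sum]
    rfl
  have e3 : ∑ g ∈ m.divisors, ∑ j, FF σ H s g (Q j) = ∑ j, FF σ H s 1 (Q j) := by
    rw [Finset.sum_eq_single_of_mem 1 (Nat.one_mem_divisors.2 hm)]
    intro g hg hg1
    exact sum_FF h2 σ hσ H s hQ (Nat.dvd_of_mem_divisors hg) hm hg1
  rw [e2, e3, ← e1]
  exact h1

end NWF
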