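import Mathlib

/-!
# NWF: Hecke characters of infinity type 2 with values in an imaginary quadratic field

`InO m z`: `z` is congruent to a rational integer modulo `m`, i.e. `z` lies in the order
`ℤ + m 𝓞`. `Cop m I`: the ideal `I` is nonzero and prime to `m`. `HC K m`: the completely
multiplicative functions `ψ` on the ideals of `𝓞`, with values in `K`, supported on the nonzero
ideals prime to `m`, with `ψ ((z)) = z²` for all `z ≠ 0` prime to `m` in the order `ℤ + m 𝓞`, and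
such that `m` is minimal.
-/

namespace NWF

open NumberField

variable {K : Type*} [Field K]

/-- `z` is congruent to a rational integer mod `m` -/
def InO (m : ℕ) (z : 𝓞 K) : Prop := ∃ n : ℤ, (m : 𝓞 K) ∣ z - n

/-- the ideal `I` is nonzero and prime to `m` -/
def Cop (m : ℕ) (I : Ideal (𝓞 K)) : Prop := I ≠ 0 ∧ IsCoprime I (Ideal.span {(m : 𝓞 K)})

/-- `K`-valued Hecke characters of infinity type `2` -/
structure HC (K : Type*) [Field K] (m : ℕ) where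
  psi : Ideal (𝓞 K) →*₀ K
  ne : ∀ I, psi I ≠ 0 ↔ Cop m I
  val : ∀ z : 𝓞 K, InO m z → Cop m (Ideal.span {z}) → psi (Ideal.span {z}) = (z : K) ^ 2
  min : ∀ d : ℕ, d ∣ m → d ≠ m → ∃ w : 𝓞 K, InO d w ∧ Cop m (Ideal.span {w}) ∧
    psi (Ideal.span {w}) ≠ (w : K) ^ 2

/-! ### the order `ℤ + m 𝓞` -/

theorem InO.int (m : ℕ) (n : ℤ) : InO m (n : 𝓞 K) := ⟨n, by simp⟩

theorem InO.one (m : ℕ) : InO m (1 : 𝓞 K) := ⟨1, by simp⟩

theorem InO.mul {m : ℕ} {x y : 𝓞 K} (hx : InO m x) (hy : InO m y) : InO m (x * y) := by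
  obtain ⟨a, ha⟩ := hx
  obtain ⟨b, hb⟩ := hy
  refine ⟨a * b, ?_⟩
  have e : x * y - ((a * b : ℤ) : 𝓞 K) = (x - a) * y + a * (y - b) := by push_cast; ring
  rw [e]
  exact dvd_add (ha.mul_right _) (hb.mul_left _)

theorem InO.neg {m : ℕ} {x : 𝓞 K} (hx : InO m x) : InO m (-x) := by
  obtain ⟨a, ha⟩ := hx
  refine ⟨-a, ?_⟩
  have e : -x - ((-a : ℤ) : 𝓞 K) = -(x - a) := by push_cast; ring
  rw [e]
  exact (dvd_neg).2 ha

theorem InO.add {m : ℕ} {x y : 𝓞 K} (hx : InO m x) (hy : InO m y) : InO m (x + y) := by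
  obtain ⟨a, ha⟩ := hx
  obtain ⟨b, hb⟩ := hy
  refine ⟨a + b, ?_⟩
  have e : x + y - ((a + b : ℤ) : 𝓞 K) = (x - a) + (y - b) := by push_cast; ring
  rw [e]
  exact dvd_add ha hb

theorem InO.of_dvd_sub {m : ℕ} {x y : 𝓞 K} (hx : InO m x) (h : (m : 𝓞 K) ∣ y - x) : InO m y := by
  obtain ⟨a, ha⟩ := hx
  refine ⟨a, ?_⟩
  have e : y - (a : 𝓞 K) = (y - x) + (x - a) := by ring
  rw [e]
  exact dvd_add h ha

theorem InO.mono {m d : ℕ} (hd : d ∣ m) {x : 𝓞 K} (hx : InO m x) : InO d x := by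
  obtain ⟨a, ha⟩ := hx
  exact ⟨a, dvd_trans (Nat.cast_dvd_cast hd) ha⟩

/-- an inverse modulo `m` -/
theorem exists_inv {m : ℕ} {w : 𝓞 K} (hw : IsCoprime w (m : 𝓞 K)) :
    ∃ v : 𝓞 K, IsCoprime v (m : 𝓞 K) ∧ (m : 𝓞 K) ∣ v * w - 1 := by
  obtain ⟨a, b, h⟩ := hw
  refine ⟨a, ⟨w, b, by rw [← h]; ring⟩, ⟨-b, by rw [← h]; ring⟩⟩

/-! ### ideals prime to `m` -/

theorem cop_mul {m : ℕ} {I J : Ideal (𝓞 K)} : Cop m (I * J) ↔ Cop m I ∧ Cop m J := by
  rw [Cop, Cop, Cop, IsCoprime.mul_left_iff, mul_ne_zero_iff]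
  tauto

theorem cop_top (m : ℕ) : Cop m (1 : Ideal (𝓞 K)) := ⟨one_ne_zero, isCoprime_one_left⟩

theorem cop_span_iff {m : ℕ} {z : 𝓞 K} :
    Cop m (Ideal.span {z}) ↔ z ≠ 0 ∧ IsCoprime z (m : 𝓞 K) := by
  rw [Cop, Ideal.isCoprime_span_singleton_iff, Ideal.zero_eq_bot, Ne,
    Ideal.span_singleton_eq_bot]

variable [NumberField K]

/-! ### rational integers in `𝓞` -/

theorem int_dvd {a b : ℤ} : (a : 𝓞 K) ∣ (b : 𝓞 K) ↔ a ∣ b := by
  constructor
  · intro h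
    have h1 := map_dvd (Algebra.norm ℤ) h
    have e : ∀ c : ℤ, Algebra.norm ℤ (c : 𝓞 K) = c ^ Module.finrank ℤ (𝓞 K) := by
      intro c
      have := Algebra.norm_algebraMap_of_basis (RingOfIntegers.basis K) c
      rw [eq_intCast (algebraMap ℤ (𝓞 K)) c] at this
      rw [this, Module.finrank_eq_card_basis (RingOfIntegers.basis K)]
    rw [e, e] at h1
    have h0 : Module.finrank ℤ (𝓞 K) ≠ 0 := Module.finrank_pos.ne'
    exact (Int.pow_dvd_pow_iff h0).1 h1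
  · rintro ⟨c, rfl⟩
    exact ⟨c, by push_cast; ring⟩

theorem int_coprime {a b : ℤ} : IsCoprime (a : 𝓞 K) (b : 𝓞 K) ↔ IsCoprime a b := by
  constructor
  · rintro ⟨x, y, h⟩
    rw [Int.isCoprime_iff_gcd_eq_one]
    have h1 : ((Int.gcd a b : ℤ) : 𝓞 K) ∣ ((1 : ℤ) : 𝓞 K) := by
      rw [Int.cast_one, ← h]
      exact dvd_add ((int_dvd.2 (Int.gcd_dvd_left ..)).mul_left _)
        ((int_dvd.2 (Int.gcd_dvd_right ..)).mul_left _)
    have h2 := int_dvd.1 h1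
    have h3 := Int.eq_one_of_dvd_one (by positivity) h2
    exact_mod_cast h3
  · intro h
    exact h.intCast

/-- if `z = n mod m` then `z` is prime to `m` iff `n` is -/
theorem coprime_iff {m : ℕ} {z : 𝓞 K} {n : ℤ} (h : (m : 𝓞 K) ∣ z - n) :
    IsCoprime z (m : 𝓞 K) ↔ IsCoprime n (m : ℤ) := by
  obtain ⟨t, ht⟩ := h
  have e : z = n + (m : 𝓞 K) * t := by rw [← ht]; ring
  rw [e, IsCoprime.add_mul_left_left_iff, ← int_coprime (K := K)]
  push_cast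
  rfl

/-- the inverse modulo `m` of an element of the order `ℤ + d 𝓞`, `d ∣ m` -/
theorem InO.inv {m d : ℕ} {v w : 𝓞 K} (hd : d ∣ m) (hw : InO d w)
    (hv : (m : 𝓞 K) ∣ v * w - 1) : InO d v := by
  obtain ⟨a, ha⟩ := hw
  have hdm : (d : 𝓞 K) ∣ v * w - 1 := dvd_trans (Nat.cast_dvd_cast hd) hv
  have hwd : IsCoprime w (d : 𝓞 K) := by
    obtain ⟨t, ht⟩ := hdm
    exact ⟨v, -t, by rw [← sub_eq_zero, ← sub_eq_zero.2 ht]; ring⟩
  obtain ⟨b, c, hbc⟩ := (coprime_iff ha).1 hwd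
  refine ⟨b, ?_⟩
  have e1 : (b : 𝓞 K) * a + c * d = 1 := by exact_mod_cast congrArg (fun n : ℤ => (n : 𝓞 K)) hbc
  have e : v - (b : 𝓞 K) = (v * w - 1) * b - v * b * (w - a) + d * (v * c) := by
    linear_combination v * (-e1)
  rw [e]
  exact dvd_add (dvd_sub (hdm.mul_right _) (ha.mul_left _)) (dvd_mul_right _ _)

/-- division in the order by an element prime to `m` -/
theorem InO.div {m : ℕ} {x z : 𝓞 K} (hx : InO m x) (hc : IsCoprime x (m : 𝓞 K))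
    (h : InO m (x * z)) : InO m z := by
  obtain ⟨v, -, hv2⟩ := exists_inv hc
  have hv := InO.inv (dvd_refl m) hx hv2
  refine (hv.mul h).of_dvd_sub ?_
  have e : z - v * (x * z) = -((v * x - 1) * z) := by ring
  rw [e]
  exact dvd_neg.2 (hv2.mul_right _)

end NWF
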