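import Mathlib

/-!
# NWF/NV: an absolutely convergent completely multiplicative sum is not zero

`M` is a factorial monoid with trivial units (for us: the ideals of a Dedekind domain),
`f : M →*₀ ℂ` is absolutely summable. Then `∑' x, f x ≠ 0`:
for a finite set `S` of primes let `F(S)` be the sum over the `x` divisible by no `p ∈ S`; then
`F(S ∪ {p}) = (1 - f p) F(S)`, and `F(S)` is close to `f 1 = 1` for a suitable `S`.
-/

open scoped Classical in
theorem NWF.tsum_ne_zero {M : Type*} [CommMonoidWithZero M]
    [UniqueFactorizationMonoid M] [Subsingleton Mˣ] (f : M →*₀ ℂ)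
    (hs : Summable fun x => ‖f x‖) : ∑' x, f x ≠ 0 := by
  -- the sum over the elements divisible by no element of `S`
  set F : Finset M → ℂ := fun S => ∑' x, if ∃ p ∈ S, p ∣ x then 0 else f x with hF
  have hsf : Summable f := hs.of_norm
  have hsum : ∀ S : Finset M, Summable fun x => if ∃ p ∈ S, p ∣ x then 0 else f x := by
    intro S
    refine Summable.of_norm_bounded hs fun x => ?_
    split_ifs
    · rw [norm_zero]; exact norm_nonneg _
    · exact le_rfl
  have step : ∀ (S : Finset M) (p : M), (∀ r ∈ S, Prime r) → Prime p → p ∉ S →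
      F (insert p S) = (1 - f p) * F S := by
    intro S p hS hp hpS
    have hinj : Function.Injective fun x : M => p * x := fun x y h => mul_left_cancel₀ hp.ne_zero h
    -- the elements divisible by `p`
    have e1 : ∑' x, (if (∃ r ∈ S, r ∣ x) ∨ ¬ p ∣ x then 0 else f x) = f p * F S := by
      rw [hF]
      simp only
      rw [← tsum_mul_left, ← hinj.tsum_eq]
      · refine tsum_congr fun x => ?_
        have hc : ((∃ r ∈ S, r ∣ p * x) ∨ ¬ p ∣ p * x) ↔ ∃ r ∈ S, r ∣ x := by
          constructor
          · rintro (⟨r, hr, hd⟩ | h)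
            · refine ⟨r, hr, ((hS r hr).dvd_or_dvd hd).resolve_left fun h => hpS ?_⟩
              have h2 : Associated r p := (hS r hr).associated_of_dvd hp h
              rw [← associated_iff_eq.1 h2]
              exact hr
            · exact absurd (Dvd.intro _ rfl) h
          · rintro ⟨r, hr, hd⟩
            exact Or.inl ⟨r, hr, Dvd.dvd.mul_left hd p⟩
        by_cases h : ∃ r ∈ S, r ∣ x
        · rw [if_pos (hc.2 h), if_pos h, mul_zero]
        · rw [if_neg (fun h' => h (hc.1 h')), if_neg h, map_mul]
      · intro x hx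
        rw [Function.mem_support] at hx
        by_contra hn
        apply hx
        rw [if_pos]
        right
        rintro ⟨y, rfl⟩
        exact hn ⟨y, rfl⟩
    have e2 : ∀ x, (if ∃ r ∈ S, r ∣ x then 0 else f x) -
        (if (∃ r ∈ S, r ∣ x) ∨ ¬ p ∣ x then 0 else f x) =
        if ∃ r ∈ insert p S, r ∣ x then 0 else f x := by
      intro x
      have hc : (∃ r ∈ insert p S, r ∣ x) ↔ p ∣ x ∨ ∃ r ∈ S, r ∣ x := by
        simp only [Finset.mem_insert, exists_eq_or_imp]
      by_cases ha : ∃ r ∈ S, r ∣ x
      · rw [if_pos ha, if_pos (Or.inl ha), if_pos (hc.2 (Or.inr ha)), sub_zero]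
      · by_cases hb : p ∣ x
        · rw [if_neg ha, if_pos (hc.2 (Or.inl hb)), if_neg, sub_self]
          rintro (h | h)
          · exact ha h
          · exact h hb
        · rw [if_neg ha, if_pos (Or.inr hb), if_neg, sub_zero]
          rw [hc]
          rintro (h | h)
          · exact hb h
          · exact ha h
    have s2 : Summable fun x => if (∃ r ∈ S, r ∣ x) ∨ ¬ p ∣ x then 0 else f x := by
      refine Summable.of_norm_bounded hs fun x => ?_
      split_ifs
      · rw [norm_zero]; exact norm_nonneg _
      · exact le_rfl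
    have e3 : F (insert p S) = F S - f p * F S := by
      rw [← e1, hF]
      simp only
      rw [← (hsum S).tsum_sub s2]
      exact tsum_congr fun x => (e2 x).symm
    rw [e3]
    ring
  have prod : ∀ S : Finset M, (∀ r ∈ S, Prime r) → F S = (∏ r ∈ S, (1 - f r)) * F ∅ := by
    intro S
    induction S using Finset.induction_on with
    | empty => intro _; simp
    | insert p S hp ih =>
      intro h
      have hS : ∀ r ∈ S, Prime r := fun r hr => h r (Finset.mem_insert_of_mem hr)
      rw [step S p hS (h p (Finset.mem_insert_self p S)) hp, ih hS, Finset.prod_insert hp]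
      ring
  have hF0 : F ∅ = ∑' x, f x := by
    rw [hF]
    simp
  -- a set `S` with `F S ≠ 0`
  obtain ⟨T, hT⟩ : ∃ T : Finset M, ∑' x : M, (if x ∈ T then 0 else ‖f x‖) < 1 := by
    have h2 := hs.tsum_vanishing (e := Metric.ball (0 : ℝ) 1) (Metric.ball_mem_nhds 0 one_pos)
    obtain ⟨T, hT⟩ := h2
    refine ⟨T, ?_⟩
    have h3 := hT (↑T)ᶜ (Set.disjoint_left.2 fun x hx hx' => hx (by exact_mod_cast hx'))
    rw [tsum_subtype ((↑T : Set M)ᶜ) fun x => ‖f x‖] at h3
    have h4 : ∑' x, ((↑T : Set M)ᶜ).indicator (fun x => ‖f x‖) x =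
        ∑' x : M, (if x ∈ T then 0 else ‖f x‖) := by
      refine tsum_congr fun x => ?_
      by_cases hx : x ∈ T
      · rw [if_pos hx, Set.indicator_of_notMem]
        simpa using hx
      · rw [if_neg hx, Set.indicator_of_mem]
        simpa using hx
    rw [h4, mem_ball_zero_iff, Real.norm_eq_abs] at h3
    exact (le_abs_self _).trans_lt h3
  have hpr : ∀ x : M, x ≠ 0 → x ≠ 1 → ∃ p, Prime p ∧ p ∣ x := by
    intro x h0 h2
    obtain ⟨p, hp, hd⟩ := WfDvdMonoid.exists_irreducible_factor
      (fun h => h2 (isUnit_iff_eq_one.1 h)) h0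
    exact ⟨p, UniqueFactorizationMonoid.irreducible_iff_prime.1 hp, hd⟩
  choose! pr hpr1 hpr2 using hpr
  set S : Finset M := (T.filter fun x => x ≠ 0 ∧ x ≠ 1).image pr with hS
  have hSp : ∀ r ∈ S, Prime r := by
    intro r hr
    obtain ⟨x, hx, rfl⟩ := Finset.mem_image.1 hr
    have := (Finset.mem_filter.1 hx).2
    exact hpr1 x this.1 this.2
  have hS1 : ¬ ∃ p ∈ S, p ∣ (1 : M) := by
    rintro ⟨p, hp, hd⟩
    exact (hSp p hp).not_isUnit (isUnit_of_dvd_one hd)
  have e4 : F S - 1 = ∑' x, (if x = 1 then 0 else if ∃ p ∈ S, p ∣ x then 0 else f x) := by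
    have h2 := (hsum S).tsum_eq_add_tsum_ite 1
    rw [if_neg hS1, map_one] at h2
    rw [hF]
    simp only
    rw [h2]
    ring
  have e5 : ‖F S - 1‖ < 1 := by
    rw [e4]
    refine lt_of_le_of_lt (tsum_of_norm_bounded (g := fun x => if x ∈ T then 0 else ‖f x‖)
      (Summable.hasSum ?_) fun x => ?_) hT
    · refine Summable.of_norm_bounded hs fun x => ?_
      split_ifs
      · rw [norm_zero]; exact norm_nonneg _
      · rw [norm_norm]
    · by_cases hx1 : x = 1
      · rw [if_pos hx1, norm_zero]
        split_ifs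
        · exact le_rfl
        · exact norm_nonneg _
      · rw [if_neg hx1]
        by_cases hx0 : x = 0
        · subst hx0
          split_ifs <;> simp
        · by_cases hxT : x ∈ T
          · have h3 : ∃ p ∈ S, p ∣ x := ⟨pr x, Finset.mem_image.2
              ⟨x, Finset.mem_filter.2 ⟨hxT, hx0, hx1⟩, rfl⟩, hpr2 x hx0 hx1⟩
            rw [if_pos h3, norm_zero, if_pos hxT]
          · rw [if_neg hxT]
            split_ifs
            · rw [norm_zero]; exact norm_nonneg _
            · exact le_rfl
  have e6 : F S ≠ 0 := by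
    intro h
    rw [h, zero_sub, norm_neg, norm_one] at e5
    exact lt_irrefl _ e5
  rw [prod S hSp, hF0] at e6
  exact right_ne_zero_of_mul e6

/-- the sum of a completely multiplicative function over the ideals of a Dedekind domain -/
theorem NWF.sum_ne_zero {R : Type*} [CommRing R] [IsDedekindDomain R] (f : Ideal R →*₀ ℂ)
    (hs : Summable fun I => ‖f I‖) : ∑' I, f I ≠ 0 :=
  NWF.tsum_ne_zero f hs
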