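import Pool.Agent.NWF.Uniq

/-!
# NWF: primitivity

`OT m g`: the elements of the order `ℤ + m 𝓞` congruent modulo `m` to an integer `n` with
`gcd(n, m) = g`. For `g ∣ m`, `g ≠ 1` the sums of `ff` over the elements of type `g` of `Q j`,
with the weights `cc (Q j)`, cancel when `Q` runs through the ring classes.
-/

set_option linter.unusedSectionVars false

namespace NWF

open NumberField

variable {K : Type*} [Field K] [NumberField K]

/-- the elements of type `g` of the order -/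
def OT (m g : ℕ) (z : 𝓞 K) : Prop := ∃ n : ℤ, (m : 𝓞 K) ∣ z - n ∧ Int.gcd n m = g

theorem OT.inO {m g : ℕ} {z : 𝓞 K} (h : OT m g z) : InO m z := by
  obtain ⟨n, hn, -⟩ := h
  exact ⟨n, hn⟩

theorem OT.of_dvd_sub {m g : ℕ} {x y : 𝓞 K} (hx : OT m g x) (h : (m : 𝓞 K) ∣ y - x) :
    OT m g y := by
  obtain ⟨a, ha, hg⟩ := hx
  refine ⟨a, ?_, hg⟩
  have e : y - (a : 𝓞 K) = (y - x) + (x - a) := by ring
  rw [e]
  exact dvd_add h ha

theorem OT.unique {m g g' : ℕ} {z : 𝓞 K} (h : OT m g z) (h' : OT m g' z) : g = g' := by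
  obtain ⟨a, ha, hg⟩ := h
  obtain ⟨b, hb, hg'⟩ := h'
  have h1 : (m : 𝓞 K) ∣ (a : 𝓞 K) - b := by
    have e : (a : 𝓞 K) - b = (z - b) - (z - a) := by ring
    rw [e]
    exact dvd_sub hb ha
  have h2 : (m : ℤ) ∣ a - b := by
    rw [← int_dvd (K := K)]
    push_cast
    exact h1
  obtain ⟨t, ht⟩ := h2
  have h3 : a = b + m * t := by linarith
  rw [← hg, ← hg', h3, Int.gcd_add_mul_left_left]

theorem exists_OT {m : ℕ} (hm : m ≠ 0) {z : 𝓞 K} (h : InO m z) : ∃ g ∈ m.divisors, OT m g z := by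
  obtain ⟨a, ha⟩ := h
  refine ⟨Int.gcd a m, ?_, a, ha, rfl⟩
  rw [Nat.mem_divisors]
  exact ⟨Int.natCast_dvd_natCast.1 (Int.gcd_dvd_right ..), hm⟩

theorem OT_one_iff {m : ℕ} {z : 𝓞 K} (hz : z ≠ 0) :
    OT m 1 z ↔ InO m z ∧ Cop m (Ideal.span {z}) := by
  rw [cop_span_iff]
  constructor
  · rintro ⟨a, ha, hg⟩
    exact ⟨⟨a, ha⟩, hz, (coprime_iff ha).2 (Int.isCoprime_iff_gcd_eq_one.2 hg)⟩
  · rintro ⟨⟨a, ha⟩, -, hc⟩
    exact ⟨a, ha, Int.isCoprime_iff_gcd_eq_one.1 ((coprime_iff ha).1 hc)⟩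

/-- multiplication by an element of `ℤ + d 𝓞` prime to `m`, `m = d e`, preserves the type `g` if
`e ∣ g` -/
theorem OT.mul {m d e g : ℕ} (hde : m = d * e) (heg : e ∣ g) {w z : 𝓞 K} (hw : InO d w)
    (cw : IsCoprime w (m : 𝓞 K)) (hz : OT m g z) : OT m g (w * z) := by
  obtain ⟨a, ha⟩ := hw
  obtain ⟨n, hn, hg⟩ := hz
  have hen : (e : ℤ) ∣ n := by
    have h1 : (e : ℤ) ∣ (g : ℤ) := Int.natCast_dvd_natCast.2 heg
    rw [← hg] at h1
    exact h1.trans (Int.gcd_dvd_left ..)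
  obtain ⟨n', rfl⟩ := hen
  have had : IsCoprime a (d : ℤ) := by
    refine (coprime_iff ha).1 ?_
    refine IsCoprime.of_isCoprime_of_dvd_right cw ?_
    rw [hde]
    exact ⟨e, by push_cast; ring⟩
  refine ⟨a * (e * n'), ?_, ?_⟩
  · obtain ⟨t, ht⟩ := ha
    obtain ⟨u, hu⟩ := hn
    have hm' : (m : 𝓞 K) = d * e := by rw [hde]; push_cast; ring
    refine ⟨t * n' + w * u, ?_⟩
    rw [hm'] at hu ⊢
    push_cast at hu ⊢
    linear_combination (e : 𝓞 K) * n' * ht + w * hu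
  · rw [← hg, hde]
    have e1 : a * ((e : ℤ) * n') = e * (a * n') := by ring
    have e2 : ((d * e : ℕ) : ℤ) = e * d := by push_cast; ring
    rw [e1, e2, Int.gcd_mul_left, Int.gcd_mul_left]
    congr 1
    have h3 : Int.gcd a d = 1 := Int.isCoprime_iff_gcd_eq_one.1 had
    exact Int.gcd_mul_right_left_of_gcd_eq_one h3

theorem OT.mul_iff {m d e g : ℕ} (hde : m = d * e) (heg : e ∣ g) {w z : 𝓞 K} (hw : InO d w)
    (cw : IsCoprime w (m : 𝓞 K)) : OT m g (w * z) ↔ OT m g z := by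
  refine ⟨fun h => ?_, OT.mul hde heg hw cw⟩
  obtain ⟨v, cv, hv⟩ := exists_inv cw
  have hvO : InO d v := InO.inv ⟨e, hde⟩ hw hv
  refine (OT.mul hde heg hvO cv h).of_dvd_sub ?_
  have e1 : z - v * (w * z) = -((v * w - 1) * z) := by ring
  rw [e1]
  exact dvd_neg.2 (hv.mul_right _)

/-! ### the partial sums -/

/-- the sum over the elements of type `g` of `I`, with its weight -/
noncomputable def FF (σ : K →+* ℂ) {m : ℕ} (H : HC K m) (s : ℂ) (g : ℕ) (I : Ideal (𝓞 K)) : ℂ :=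
  cc σ H s I * ∑' z : 𝓞 K, {z | z ∈ I ∧ OT m g z}.indicator (ff σ s) z

theorem cc_span_mul (h2 : Module.finrank ℚ K = 2) (σ : K →+* ℂ)
    (hσ : ¬ ComplexEmbedding.IsReal σ) {m : ℕ} (H : HC K m) (s : ℂ) {w : 𝓞 K} (hw : w ≠ 0)
    (I : Ideal (𝓞 K)) :
    cc σ H s (Ideal.span {w} * I) * ff σ s w =
      σ ((w : K) ^ 2 / H.psi (Ideal.span {w})) * cc σ H s I := by
  have h3 : ((Ideal.absNorm (Ideal.span {w}) : ℕ) : ℂ) = ((‖σ w‖ ^ 2 : ℝ) : ℂ) := by
    rw [← absNorm_span_eq h2 σ hσ w]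
    push_cast
    rfl
  have hw0 : ‖σ w‖ ≠ 0 := by
    rw [norm_ne_zero_iff]
    exact (map_ne_zero σ).2 (RingOfIntegers.coe_ne_zero_iff.2 hw)
  have hx : ((‖σ w‖ ^ 2 : ℝ) : ℂ) ^ s ≠ 0 := by
    rw [Ne, Complex.cpow_eq_zero_iff]
    intro h
    have := h.1
    rw [Complex.ofReal_eq_zero] at this
    exact hw0 (pow_eq_zero_iff two_ne_zero |>.1 this)
  rw [cc, cc, ff, map_mul, map_mul, map_mul, Nat.cast_mul, Complex.natCast_mul_natCast_cpow, h3,
    map_div₀, map_pow, mul_inv]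
  rw [div_eq_mul_inv, div_eq_mul_inv]
  have hx' : ((‖σ w‖ ^ 2 : ℝ) : ℂ) ^ s * (((‖σ w‖ ^ 2 : ℝ) : ℂ) ^ s)⁻¹ = 1 := mul_inv_cancel₀ hx
  linear_combination ((σ (H.psi (Ideal.span {w})))⁻¹ * (σ (H.psi I))⁻¹ * σ w ^ 2 *
    ((Ideal.absNorm I : ℕ) : ℂ) ^ s) * hx'

theorem FF_mul (h2 : Module.finrank ℚ K = 2) (σ : K →+* ℂ)
    (hσ : ¬ ComplexEmbedding.IsReal σ) {m : ℕ} (H : HC K m) (s : ℂ) {g : ℕ} {w : 𝓞 K}
    (hw : w ≠ 0) (hst : ∀ z : 𝓞 K, OT m g (w * z) ↔ OT m g z) (I : Ideal (𝓞 K)) :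
    FF σ H s g (Ideal.span {w} * I) =
      σ ((w : K) ^ 2 / H.psi (Ideal.span {w})) * FF σ H s g I := by
  have hinj : Function.Injective (fun z : 𝓞 K => w * z) := mul_right_injective₀ hw
  have h3 : ∑' z : 𝓞 K, {z | z ∈ Ideal.span {w} * I ∧ OT m g z}.indicator (ff σ s) z =
      ∑' z : 𝓞 K, {z | z ∈ Ideal.span {w} * I ∧ OT m g z}.indicator (ff σ s) (w * z) := by
    refine (hinj.tsum_eq ?_).symm
    intro z hz
    rw [Function.mem_support] at hz
    have h4 : z ∈ Ideal.span {w} * I := by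
      by_contra h5
      exact hz (Set.indicator_of_notMem (fun h6 => h5 h6.1) _)
    rw [Ideal.mem_span_singleton_mul] at h4
    obtain ⟨y, -, hy⟩ := h4
    exact ⟨y, hy⟩
  have h4 : ∀ z : 𝓞 K, {z | z ∈ Ideal.span {w} * I ∧ OT m g z}.indicator (ff σ s) (w * z) =
      ff σ s w * {z | z ∈ I ∧ OT m g z}.indicator (ff σ s) z := by
    intro z
    by_cases h5 : z ∈ I ∧ OT m g z
    · rw [Set.indicator_of_mem (show z ∈ {z | z ∈ I ∧ OT m g z} from h5),
        Set.indicator_of_mem, ff_mul]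
      exact ⟨Ideal.mul_mem_mul (Ideal.mem_span_singleton_self w) h5.1, (hst z).2 h5.2⟩
    · rw [Set.indicator_of_notMem (show z ∉ {z | z ∈ I ∧ OT m g z} from h5),
        Set.indicator_of_notMem, mul_zero]
      rintro ⟨h6, h7⟩
      apply h5
      refine ⟨?_, (hst z).1 h7⟩
      rw [Ideal.mem_span_singleton_mul] at h6
      obtain ⟨y, hy, hyz⟩ := h6
      rwa [← mul_left_cancel₀ hw hyz]
  rw [FF, h3]
  simp only [h4]
  rw [tsum_mul_left, FF, ← mul_assoc, cc_span_mul h2 σ hσ H s hw, mul_assoc]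

theorem FF_eqv (h2 : Module.finrank ℚ K = 2) (σ : K →+* ℂ)
    (hσ : ¬ ComplexEmbedding.IsReal σ) {m : ℕ} (H : HC K m) (s : ℂ) (g : ℕ)
    {I I' : Ideal (𝓞 K)} (h : Eqv m I I') : FF σ H s g I = FF σ H s g I' := by
  obtain ⟨x, y, hx, hy, cx, cy, h⟩ := h
  have key : ∀ (w : 𝓞 K) (L : Ideal (𝓞 K)), InO m w → Cop m (Ideal.span {w}) →
      FF σ H s g (Ideal.span {w} * L) = FF σ H s g L := by
    intro w L hw cw
    have hc := cop_span_iff.1 cw
    rw [FF_mul h2 σ hσ H s hc.1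
      (fun z => OT.mul_iff (mul_one m).symm (one_dvd g) hw hc.2) L, H.val w hw cw, div_self,
      map_one, one_mul]
    exact pow_ne_zero 2 (RingOfIntegers.coe_ne_zero_iff.2 hc.1)
  rw [← key x I hx cx, h, key y I' hy cy]

/-- the sums over the elements of type `g ≠ 1` cancel -/
theorem sum_FF (h2 : Module.finrank ℚ K = 2) (σ : K →+* ℂ)
    (hσ : ¬ ComplexEmbedding.IsReal σ) {m : ℕ} (H : HC K m) (s : ℂ) {J : Type*} [Fintype J]
    {Q : J → Ideal (𝓞 K)} (hQ : IsReps m Q) {g : ℕ} (hg : g ∣ m) (hm : m ≠ 0) (hg1 : g ≠ 1) :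
    ∑ j, FF σ H s g (Q j) = 0 := by
  obtain ⟨d, hd⟩ := hg
  have hdm : m = d * g := by rw [hd, mul_comm]
  have hd0 : d ≠ 0 := by
    rintro rfl
    exact hm (by rw [hd, mul_zero])
  have hdne : d ≠ m := by
    intro h
    apply hg1
    have : d * g = d * 1 := by rw [← hdm, mul_one, h]
    exact Nat.eq_of_mul_eq_mul_left (Nat.pos_of_ne_zero hd0) this
  obtain ⟨w, hw, cw, hval⟩ := H.min d ⟨g, hdm⟩ hdne
  have hc := cop_span_iff.1 cw
  have hmul : ∀ I, FF σ H s g (Ideal.span {w} * I) =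
      σ ((w : K) ^ 2 / H.psi (Ideal.span {w})) * FF σ H s g I :=
    FF_mul h2 σ hσ H s hc.1 (fun z => OT.mul_iff hdm (dvd_refl g) hw hc.2)
  have hpw : H.psi (Ideal.span {w}) ≠ 0 := (H.ne _).2 cw
  have hne : σ ((w : K) ^ 2 / H.psi (Ideal.span {w})) ≠ 1 := by
    intro h
    rw [← map_one σ] at h
    have h3 := σ.injective h
    rw [div_eq_one_iff_eq hpw] at h3
    exact hval h3.symm
  -- the permutation of the classes
  have hπ : ∀ j, ∃ k, Eqv m (Ideal.span {w} * Q j) (Q k) := fun j =>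
    hQ.exists_eqv (cop_mul.2 ⟨cw, hQ.1 j⟩)
  choose π hπ using hπ
  have hπi : Function.Injective π := by
    intro j k hjk
    have h3 : Eqv m (Ideal.span {w} * Q j) (Ideal.span {w} * Q k) := by
      have h4 := hπ j
      rw [hjk] at h4
      exact h4.trans (hπ k).symm
    apply hQ.inj
    obtain ⟨x, y, hx, hy, cx, cy, h⟩ := h3
    refine ⟨x, y, hx, hy, cx, cy, ?_⟩
    apply mul_left_cancel₀ cw.1
    calc Ideal.span {w} * (Ideal.span {x} * Q j) = Ideal.span {x} * (Ideal.span {w} * Q j) := by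
          ring
      _ = Ideal.span {y} * (Ideal.span {w} * Q k) := h
      _ = _ := by ring
  have hπb : Function.Bijective π := Finite.injective_iff_bijective.1 hπi
  have h3 : ∑ j, FF σ H s g (Q (π j)) = ∑ j, FF σ H s g (Q j) :=
    Function.Bijective.sum_comp hπb (fun j => FF σ H s g (Q j))
  have h4 : ∑ j, FF σ H s g (Q (π j)) =
      σ ((w : K) ^ 2 / H.psi (Ideal.span {w})) * ∑ j, FF σ H s g (Q j) := by
    rw [Finset.mul_sum]
    refine Finset.sum_congr rfl fun j _ => ?_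
    rw [← hmul, FF_eqv h2 σ hσ H s g (hπ j)]
  rw [h3] at h4
  by_contra h0
  apply hne
  have h5 : 1 * ∑ j, FF σ H s g (Q j) =
      σ ((w : K) ^ 2 / H.psi (Ideal.span {w})) * ∑ j, FF σ H s g (Q j) := by
    rw [one_mul]
    exact h4
  exact (mul_right_cancel₀ h0 h5).symm

end NWF
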