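import Pool.Agent.NWF.Cls
import Pool.Agent.NWF.Basis

/-!
# NWF: representatives of the ring classes

PROOF. (a) `IsDedekindDomain.exists_sup_span_eq` with `I = J * span {M} ≤ J`, `I ≠ ⊥`: there is `y` with
`J * span {M} ⊔ span {y} = J`. (b) `span {m}` and `J * span {M}` are coprime (`Cop m J` and `m, M` coprime), so
by CRT there is `z₀` with `z₀ ≡ 1 mod m` and `z₀ ≡ y mod J * span {M}`. Then `z₀ ∈ J` and
`J * span {M} ⊔ span {z₀} = J`; (c) `J ∣ span {z₀}`: `span {z₀} = J * Q₀`; `J * (span {M} ⊔ Q₀) = J`, so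
`span {M} ⊔ Q₀ = ⊤`. (d) content of `Q₀`: `Q₀ ⊆ (e)`, `e (b + w) ∈ Q₀`. So `Q₀ = span {e} * Q`,
`b + w ∈ Q`, `z₀ ∈ Q₀` gives `z₀ = e z`, `J * Q = span {z}`; `e` is prime to `m`, and `e z ≡ 1 mod m`:
`InO m z`.
-/

set_option linter.unusedSectionVars false

open NumberField Ideal

namespace NWF

variable {K : Type*} [Field K] [NumberField K]

theorem exists_content {w : 𝓞 K} (hw : QB w) (I : Ideal (𝓞 K)) (hI : I ≠ ⊥) :
    ∃ e b : ℤ, (∀ z ∈ I, (e : 𝓞 K) ∣ z) ∧ (e : 𝓞 K) * (b + w) ∈ I ∧ (e : 𝓞 K) ≠ 0 := by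
  obtain ⟨n, t, hnt⟩ := hw.gen (w * w)
  let S : Ideal ℤ :=
    { carrier := {y | ∃ x : ℤ, (x : 𝓞 K) + y * w ∈ I}
      add_mem' := by
        rintro y y' ⟨x, hx⟩ ⟨x', hx'⟩
        refine ⟨x + x', ?_⟩
        have := I.add_mem hx hx'
        push_cast
        convert this using 1
        ring
      zero_mem' := ⟨0, by simp⟩
      smul_mem' := by
        rintro c y ⟨x, hx⟩
        refine ⟨c * x, ?_⟩
        have := I.mul_mem_left (c : 𝓞 K) hx
        simp only [smul_eq_mul]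
        push_cast
        convert this using 1
        ring }
  have hS : ∀ y : ℤ, y ∈ S ↔ ∃ x : ℤ, (x : 𝓞 K) + y * w ∈ I := fun y => Iff.rfl
  obtain ⟨e, he⟩ := (IsPrincipalIdealRing.principal S).principal
  have he1 : e ∈ S := by
    rw [he]
    exact Submodule.mem_span_singleton_self e
  have he2 : ∀ y ∈ S, e ∣ y := by
    intro y hy
    rw [he] at hy
    exact Ideal.mem_span_singleton.1 hy
  have h1 : ∀ x y : ℤ, (x : 𝓞 K) + y * w ∈ I → e ∣ x ∧ e ∣ y := by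
    intro x y hxy
    have hy : e ∣ y := he2 y ((hS y).2 ⟨x, hxy⟩)
    have h2 : ((y * n : ℤ) : 𝓞 K) + ((x + y * t : ℤ) : 𝓞 K) * w ∈ I := by
      have := I.mul_mem_right w hxy
      convert this using 1
      push_cast
      linear_combination -(y : 𝓞 K) * hnt
    have h3 : e ∣ x + y * t := he2 _ ((hS _).2 ⟨_, h2⟩)
    exact ⟨(dvd_add_left (hy.mul_right t)).1 h3, hy⟩
  have h2 : ∀ z ∈ I, (e : 𝓞 K) ∣ z := by
    intro z hz
    obtain ⟨x, y, rfl⟩ := hw.gen z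
    obtain ⟨h3, h4⟩ := h1 x y hz
    have h3' : (e : 𝓞 K) ∣ (x : 𝓞 K) := Int.cast_dvd_cast _ _ h3
    have h4' : (e : 𝓞 K) ∣ (y : 𝓞 K) := Int.cast_dvd_cast _ _ h4
    exact dvd_add h3' (h4'.mul_right w)
  obtain ⟨x0, hx0⟩ := (hS e).1 he1
  obtain ⟨b, hb⟩ := (h1 x0 e hx0).1
  refine ⟨e, b, h2, ?_, ?_⟩
  · rw [hb] at hx0
    push_cast at hx0
    convert hx0 using 1
    ring
  · intro h0
    obtain ⟨z, hz, hz0⟩ := Submodule.exists_mem_ne_zero_of_ne_bot hI
    have := h2 z hz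
    rw [h0, zero_dvd_iff] at this
    exact hz0 this

theorem coprime_absNorm {Q : Ideal (𝓞 K)} {M : ℕ} (hQ : Q ≠ ⊥)
    (h : IsCoprime Q (span {(M : 𝓞 K)})) : (absNorm Q).Coprime M := by
  by_contra hc
  rw [Nat.Prime.not_coprime_iff_dvd] at hc
  obtain ⟨p, hp, hp1, hp2⟩ := hc
  have : Finite (𝓞 K ⧸ Q) := Ideal.finiteQuotientOfFreeOfNeBot _ hQ
  have hcard : absNorm Q = Nat.card (𝓞 K ⧸ Q) := by
    rw [Ideal.absNorm_apply, Submodule.cardQuot_apply]
  rw [hcard] at hp1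
  have : Fact p.Prime := ⟨hp⟩
  obtain ⟨x, hx⟩ := exists_prime_addOrderOf_dvd_card' p hp1
  obtain ⟨i, hi, t, ht, hit⟩ := Ideal.isCoprime_iff_exists.1 h
  obtain ⟨a, ha⟩ := Ideal.mem_span_singleton.1 ht
  obtain ⟨k, hk⟩ := hp2
  obtain ⟨y, rfl⟩ := Ideal.Quotient.mk_surjective x
  have h1 : p • (Ideal.Quotient.mk Q y) = 0 := by
    rw [← hx]
    exact addOrderOf_nsmul_eq_zero _
  have h2 : (Ideal.Quotient.mk Q) ((p : 𝓞 K) * y) = 0 := by
    rw [map_mul, map_natCast, ← nsmul_eq_mul]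
    exact h1
  rw [Ideal.Quotient.eq_zero_iff_mem] at h2
  have h3 : y ∈ Q := by
    have e : y = y * i + (k * a) * (p * y) := by
      have : (1 : 𝓞 K) = i + (p * k) * a := by
        rw [← hit, ha, hk]
        push_cast
        ring
      linear_combination y * this
    rw [e]
    exact Q.add_mem (Q.mul_mem_left _ hi) (Q.mul_mem_left _ h2)
  have h4 : Ideal.Quotient.mk Q y = 0 := Ideal.Quotient.eq_zero_iff_mem.2 h3
  rw [h4, addOrderOf_zero] at hx
  exact hp.one_lt.ne hx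

theorem exists_prim {w : 𝓞 K} (hw : QB w) {m M : ℕ} (hm : m ≠ 0) (hM : M ≠ 0)
    (hmM : m.Coprime M) (J : Ideal (𝓞 K)) (hJ : Cop m J) :
    ∃ (Q : Ideal (𝓞 K)) (b : ℤ), Inv m J Q ∧ (absNorm Q).Coprime M ∧ (b : 𝓞 K) + w ∈ Q := by
  have hM0 : (M : 𝓞 K) ≠ 0 := by exact_mod_cast hM
  have hm0 : (m : 𝓞 K) ≠ 0 := by exact_mod_cast hm
  have hsM : span {(M : 𝓞 K)} ≠ 0 := by
    rw [Ideal.zero_eq_bot, Ne, Ideal.span_singleton_eq_bot]
    exact hM0
  set I0 : Ideal (𝓞 K) := J * span {(M : 𝓞 K)} with hI0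
  have hI0J : I0 ≤ J := Ideal.mul_le_left
  have hI00 : I0 ≠ 0 := mul_ne_zero hJ.1 hsM
  obtain ⟨y, hy⟩ := IsDedekindDomain.exists_sup_span_eq hI0J hI00
  have hcop : IsCoprime (span {(m : 𝓞 K)}) I0 := by
    refine IsCoprime.mul_right hJ.2.symm ?_
    rw [Ideal.isCoprime_span_singleton_iff]
    exact hmM.cast
  obtain ⟨i, hi, j, hj, hij⟩ := Ideal.isCoprime_iff_exists.1 hcop
  obtain ⟨i', hi'⟩ := Ideal.mem_span_singleton.1 hi
  obtain ⟨z, hz0, hz1, hz2⟩ : ∃ z : 𝓞 K, z ≠ 0 ∧ (m : 𝓞 K) ∣ z - 1 ∧ z - y ∈ I0 := by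
    have e1 : j + i * y - 1 = m * (i' * (y - 1)) := by
      linear_combination hij + (y - 1) * hi'
    have e2 : j + i * y - y = j * (1 - y) := by
      have : i = 1 - j := by rw [← hij]; ring
      rw [this]
      ring
    by_cases h0 : j + i * y = 0
    · obtain ⟨t, ht, ht0⟩ := Submodule.exists_mem_ne_zero_of_ne_bot hI00
      refine ⟨m * t, mul_ne_zero hm0 ht0, ?_, ?_⟩
      · have : (m : 𝓞 K) ∣ 1 := by
          refine ⟨-(i' * (y - 1)), ?_⟩
          rw [h0] at e1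
          linear_combination -e1
        exact dvd_sub (dvd_mul_right _ _) this
      · have h3 : y ∈ I0 := by
          have : y = -(j * (1 - y)) := by
            rw [h0] at e2
            linear_combination -e2
          rw [this]
          exact I0.neg_mem (I0.mul_mem_right _ hj)
        exact I0.sub_mem (I0.mul_mem_left _ ht) h3
    · refine ⟨j + i * y, h0, ⟨_, e1⟩, ?_⟩
      rw [e2]
      exact I0.mul_mem_right _ hj
  have hzJ : z ∈ J := by
    have hyJ : y ∈ J := by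
      rw [← hy]
      exact Submodule.mem_sup_right (Ideal.mem_span_singleton_self y)
    have : z = (z - y) + y := by ring
    rw [this]
    exact J.add_mem (hI0J hz2) hyJ
  have hsup : I0 ⊔ span {z} = J := by
    apply le_antisymm
    · refine sup_le hI0J ?_
      rw [Ideal.span_singleton_le_iff_mem]
      exact hzJ
    · rw [← hy]
      refine sup_le le_sup_left ?_
      rw [Ideal.span_singleton_le_iff_mem]
      have : y = -(z - y) + z := by ring
      rw [this]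
      exact Ideal.add_mem _ (Submodule.mem_sup_left (I0.neg_mem hz2))
        (Submodule.mem_sup_right (Ideal.mem_span_singleton_self z))
  obtain ⟨Q0, hQ0⟩ := Ideal.dvd_span_singleton.2 hzJ
  have hcop2 : span {(M : 𝓞 K)} ⊔ Q0 = ⊤ := by
    apply mul_left_cancel₀ hJ.1
    rw [Ideal.mul_sup, ← hQ0, ← hI0, hsup, Ideal.mul_top]
  have hsz : span {z} ≠ 0 := by
    rw [Ideal.zero_eq_bot, Ne, Ideal.span_singleton_eq_bot]
    exact hz0
  have hQ00 : Q0 ≠ ⊥ := by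
    rintro rfl
    rw [Ideal.mul_bot] at hQ0
    exact hsz hQ0
  obtain ⟨e, b, he1, he2, he0⟩ := exists_content hw Q0 hQ00
  have hse : span {(e : 𝓞 K)} ≠ 0 := by
    rw [Ideal.zero_eq_bot, Ne, Ideal.span_singleton_eq_bot]
    exact he0
  obtain ⟨Q, hQ⟩ : span {(e : 𝓞 K)} ∣ Q0 := by
    rw [Ideal.dvd_iff_le]
    intro x hx
    exact Ideal.mem_span_singleton.2 (he1 x hx)
  have hzQ0 : z ∈ Q0 := by
    have : span {z} ≤ Q0 := by
      rw [hQ0]
      exact Ideal.mul_le_right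
    exact this (Ideal.mem_span_singleton_self z)
  obtain ⟨z', hz'⟩ := he1 z hzQ0
  have hJQ : J * Q = span {z'} := by
    apply mul_left_cancel₀ hse
    rw [← span_mul, ← hz', hQ0, hQ]
    ring
  obtain ⟨c1, c2⟩ := cop_of_dvd_sub_one hz0 hz1
  rw [hz'] at c1 c2
  rw [cop_span_mul] at c2
  have hInv : Inv m J Q :=
    ⟨z', InO.div (InO.int m e) (cop_span_iff.1 c2.1).2 c1, c2.2, hJQ⟩
  refine ⟨Q, b, hInv, ?_, ?_⟩
  · have hQM : IsCoprime Q (span {(M : 𝓞 K)}) := by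
      have h1 : IsCoprime Q0 (span {(M : 𝓞 K)}) := by
        rw [Ideal.isCoprime_iff_sup_eq, sup_comm]
        exact hcop2
      rw [hQ] at h1
      exact h1.of_mul_left_right
    exact coprime_absNorm (hInv.cop.2.1) hQM
  · rw [hQ] at he2
    rw [Ideal.mem_span_singleton_mul] at he2
    obtain ⟨u, hu, hu2⟩ := he2
    rwa [← mul_left_cancel₀ he0 hu2]

end NWF
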