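import Mathlib

/-!
# NWF/SumN: `Σ N(I)^(-s)` over the ideals of a number field converges for `s > 1`
-/

open Filter Ideal NumberField Topology Asymptotics
open scoped nonZeroDivisors

namespace NWF

variable (K : Type*) [Field K] [NumberField K]

/-- the number of ideals of norm `n` -/
noncomputable def aN (n : ℕ) : ℕ := Nat.card {I : Ideal (𝓞 K) // absNorm I = n}

theorem aN_sum (n : ℕ) : (∑ k ∈ Finset.Icc 1 n, (aN K k : ℝ)) =
    (Nat.card {I : (Ideal (𝓞 K))⁰ // (absNorm (I : Ideal (𝓞 K)) : ℝ) ≤ (n : ℝ)} : ℝ) := by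
  simp only [Nat.cast_le, ← Nat.cast_sum]
  congr 1
  unfold aN
  symm
  rw [← add_left_inj 1, ← card_norm_le_eq_card_norm_le_add_one,
    show Finset.Icc 1 n = Finset.Ioc 0 n from Finset.Icc_succ_left_eq_Ioc _ _,
    show 1 = Nat.card {I : Ideal (𝓞 K) // absNorm I = 0} by simp [Ideal.absNorm_eq_zero_iff],
    Finset.sum_Ioc_add_eq_sum_Icc (n.zero_le),
    ← Finset.card_preimage_eq_sum_card_image_eq (fun k _ ↦ finite_setOfPred_absNorm_eq k)]
  simp [Set.coe_eq_subtype]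

theorem aN_bigO : (fun n : ℕ => ∑ k ∈ Finset.Icc 1 n, (aN K k : ℝ)) =O[atTop]
    fun n => (n : ℝ) ^ (1 : ℝ) := by
  have h := (NumberField.Ideal.tendsto_norm_le_div_atTop₀ K).comp tendsto_natCast_atTop_atTop
  have h1 := h.isBigO_one ℝ
  have h2 : (fun n : ℕ => ∑ k ∈ Finset.Icc 1 n, (aN K k : ℝ)) =ᶠ[atTop] fun n : ℕ =>
      (((fun s : ℝ => (Nat.card {I : (Ideal (𝓞 K))⁰ // (absNorm (I : Ideal (𝓞 K)) : ℝ) ≤ s} : ℝ) / s)
        ∘ Nat.cast) n) * (n : ℝ) := by
    filter_upwards [eventually_ne_atTop 0] with n hn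
    have : (n : ℝ) ≠ 0 := by exact_mod_cast hn
    rw [aN_sum]
    simp only [Function.comp_apply]
    field_simp
  refine h2.trans_isBigO ?_
  have h3 := h1.mul (isBigO_refl (fun n : ℕ => (n : ℝ)) atTop)
  refine h3.congr_right fun n => ?_
  rw [one_mul, Real.rpow_one]

theorem aN_summable {s : ℝ} (hs : 1 < s) : Summable fun n : ℕ => (aN K n : ℝ) * (n : ℝ) ^ (-s) := by
  have h := LSeriesSummable_of_sum_norm_bigO_and_nonneg (aN_bigO K) (fun n => Nat.cast_nonneg _)
    zero_le_one (s := (s : ℂ)) (by simpa using hs)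
  have h2 := Summable.norm h
  refine h2.congr fun n => ?_
  rw [LSeries.norm_term_eq]
  by_cases hn : n = 0
  · subst hn
    rw [if_pos rfl, Nat.cast_zero, Real.zero_rpow (by linarith), mul_zero]
  · have hn0 : 0 < n := Nat.pos_of_ne_zero hn
    rw [if_neg hn, Complex.ofReal_re, Real.rpow_neg (Nat.cast_nonneg n), div_eq_mul_inv]
    congr 1
    simp

/-- `Σ N(I)^(-s)` converges for `s > 1` (the term of `I = 0` is `0`) -/
theorem summable_absNorm {s : ℝ} (hs : 1 < s) :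
    Summable fun I : Ideal (𝓞 K) => (absNorm I : ℝ) ^ (-s) := by
  classical
  refine summable_of_sum_le (c := ∑' n : ℕ, (aN K n : ℝ) * (n : ℝ) ^ (-s))
    (fun I => Real.rpow_nonneg (Nat.cast_nonneg _) _) fun S => ?_
  have h1 : ∑ I ∈ S, (absNorm I : ℝ) ^ (-s) =
      ∑ n ∈ S.image absNorm, ((S.filter fun I => absNorm I = n).card : ℝ) * (n : ℝ) ^ (-s) := by
    rw [Finset.sum_comp (fun n : ℕ => (n : ℝ) ^ (-s)) absNorm]
    refine Finset.sum_congr rfl fun n _ => ?_
    rw [nsmul_eq_mul]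
  rw [h1]
  refine le_trans (Finset.sum_le_sum fun n _ => mul_le_mul_of_nonneg_right ?_
    (Real.rpow_nonneg (Nat.cast_nonneg _) _)) ((aN_summable K hs).sum_le_tsum _
      fun n _ => mul_nonneg (Nat.cast_nonneg _) (Real.rpow_nonneg (Nat.cast_nonneg _) _))
  rw [Nat.cast_le, aN]
  have hfin : Finite {I : Ideal (𝓞 K) // absNorm I = n} := finite_setOfPred_absNorm_eq n
  rw [← Nat.card_eq_finsetCard]
  refine Nat.card_le_card_of_injective
    (fun I : ↥(S.filter fun I => absNorm I = n) => (⟨I.1, (Finset.mem_filter.1 I.2).2⟩ :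
      {I : Ideal (𝓞 K) // absNorm I = n})) fun I J h => ?_
  exact Subtype.ext (congrArg (fun x : {I : Ideal (𝓞 K) // absNorm I = n} => x.1) h)

end NWF
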