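import Pool.Agent.NWF.HDef
import Pool.Agent.NWF.NV
import Pool.Agent.NWF.SumN

/-!
# NWF/Ser: the Dirichlet series of a Hecke character converges, and is not zero
-/

namespace NWF

open NumberField

variable {K : Type*} [Field K] [NumberField K]

section

variable (σ : K →+* ℂ) {m : ℕ} (h : HC K m)
  (hn : ∀ I, Cop m I → ‖σ (h.psi I)‖ = Ideal.absNorm I)

include hn

theorem term_norm_le (s : ℂ) (I : Ideal (𝓞 K)) (hI : Ideal.absNorm I ≠ 0) :
    ‖σ (h.psi I) * (Ideal.absNorm I : ℂ) ^ (-s)‖ ≤ (Ideal.absNorm I : ℝ) ^ (-(s.re - 1)) := by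
  have h0 : (0 : ℝ) < Ideal.absNorm I := by exact_mod_cast Nat.pos_of_ne_zero hI
  have h1 : ‖(Ideal.absNorm I : ℂ) ^ (-s)‖ = (Ideal.absNorm I : ℝ) ^ (-s.re) := by
    have := Complex.norm_cpow_eq_rpow_re_of_pos h0 (-s)
    simpa using this
  have h2 : ‖σ (h.psi I)‖ ≤ Ideal.absNorm I := by
    by_cases hc : Cop m I
    · exact (hn I hc).le
    · have : h.psi I = 0 := by
        by_contra hne
        exact hc ((h.ne I).1 hne)
      rw [this, map_zero, norm_zero]
      exact h0.le
  rw [norm_mul, h1]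
  have h3 : (Ideal.absNorm I : ℝ) ^ (-(s.re - 1)) =
      (Ideal.absNorm I : ℝ) * (Ideal.absNorm I : ℝ) ^ (-s.re) := by
    have : -(s.re - 1) = 1 + (-s.re) := by ring
    rw [this, Real.rpow_add h0, Real.rpow_one]
  rw [h3]
  exact mul_le_mul_of_nonneg_right h2 (Real.rpow_nonneg h0.le _)

/-- absolute convergence for `Re s > 2` -/
theorem summable_ser {s : ℂ} (hs : 2 < s.re) :
    Summable fun I : Ideal (𝓞 K) => ‖σ (h.psi I) * (Ideal.absNorm I : ℂ) ^ (-s)‖ := by
  refine Summable.of_nonneg_of_le (fun I => norm_nonneg _) (fun I => ?_)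
    (summable_absNorm K (s := s.re - 1) (by linarith))
  by_cases hI : Ideal.absNorm I = 0
  · have h0 : I = ⊥ := Ideal.absNorm_eq_zero_iff.1 hI
    subst h0
    rw [← Ideal.zero_eq_bot, map_zero, map_zero, zero_mul, norm_zero]
    exact Real.rpow_nonneg (Nat.cast_nonneg _) _
  · exact term_norm_le σ h hn s I hI

/-- the series does not vanish for `Re s > 2` -/
theorem ser_ne_zero {s : ℂ} (hs : 2 < s.re) :
    ∑' I : Ideal (𝓞 K), σ (h.psi I) * (Ideal.absNorm I : ℂ) ^ (-s) ≠ 0 := by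
  let f : Ideal (𝓞 K) →*₀ ℂ :=
    { toFun := fun I => σ (h.psi I) * (Ideal.absNorm I : ℂ) ^ (-s)
      map_zero' := by rw [map_zero, map_zero, zero_mul]
      map_one' := by rw [map_one, map_one, map_one]; simp
      map_mul' := fun I J => by
        rw [map_mul, map_mul, map_mul, Nat.cast_mul, Complex.natCast_mul_natCast_cpow]
        ring }
  exact sum_ne_zero f (summable_ser σ h hn hs)

end

end NWF
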