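import Pool.Agent.NWF.Cls

/-!
# NWF: the sum over the ideals as a sum over elements

`ff σ s z = σ(z)² |σ(z)|^(-2s)`, `gg σ H s I = σ(ψ(I)) N(I)^(-s)`. The sum of `gg` over all ideals
is half the sum over `j` of `σ(ψ(Q j))⁻¹ N(Q j)^s` times the sum of `ff` over the elements of
`Q j` in the order prime to `m`.
-/

set_option linter.unusedSectionVars false

namespace NWF

open NumberField

variable {K : Type*} [Field K] [NumberField K]

/-! ### the norm -/

theorem abs_norm_eq (h2 : Module.finrank ℚ K = 2) (σ : K →+* ℂ)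
    (hσ : ¬ ComplexEmbedding.IsReal σ) (x : K) : (|Algebra.norm ℚ x| : ℝ) = ‖σ x‖ ^ 2 := by
  classical
  have h1 := congr_arg (‖·‖) (Algebra.norm_eq_prod_embeddings ℚ ℂ x)
  rw [norm_prod, ← Fintype.prod_equiv (RingHom.equivRatAlgHom K ℂ) (fun f => ‖f x‖)
      (fun φ => ‖φ x‖) fun _ => by simp [RingHom.equivRatAlgHom_apply]] at h1
  have hne : ComplexEmbedding.conjugate σ ≠ σ := hσ
  have hu : (Finset.univ : Finset (K →+* ℂ)) = {ComplexEmbedding.conjugate σ, σ} := by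
    symm
    rw [← Finset.card_eq_iff_eq_univ, Finset.card_pair hne, Embeddings.card K ℂ, h2]
  rw [hu, Finset.prod_pair hne] at h1
  have h3 : ‖ComplexEmbedding.conjugate σ x‖ = ‖σ x‖ := by
    rw [ComplexEmbedding.conjugate_coe_eq, Complex.norm_conj]
  rw [h3, ← pow_two, eq_ratCast, Complex.norm_ratCast] at h1
  exact_mod_cast h1

theorem absNorm_span_eq (h2 : Module.finrank ℚ K = 2) (σ : K →+* ℂ)
    (hσ : ¬ ComplexEmbedding.IsReal σ) (z : 𝓞 K) :
    ((Ideal.absNorm (Ideal.span {z}) : ℕ) : ℝ) = ‖σ z‖ ^ 2 := by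
  rw [Ideal.absNorm_span_singleton, ← abs_norm_eq h2 σ hσ, ← Algebra.coe_norm_int, Nat.cast_natAbs]
  push_cast
  rfl

/-! ### units -/

theorem HC.unit_eq {m : ℕ} (H : HC K m) {u : 𝓞 K} (hu : IsUnit u) (hO : InO m u) :
    u = 1 ∨ u = -1 := by
  have h1 : Ideal.span {u} = 1 := by
    rw [Ideal.span_singleton_eq_top.2 hu, Ideal.one_eq_top]
  have hc : Cop m (Ideal.span {u}) := by
    rw [h1]
    exact cop_top m
  have h3 := H.val u hO hc
  rw [h1, map_one] at h3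
  have h4 : u ^ 2 = 1 := by
    apply RingOfIntegers.coe_injective
    rw [map_pow, map_one]
    exact h3.symm
  have h5 : (u - 1) * (u + 1) = 0 := by linear_combination h4
  rcases mul_eq_zero.1 h5 with h6 | h6
  · exact Or.inl (sub_eq_zero.1 h6)
  · exact Or.inr (eq_neg_of_add_eq_zero_left h6)

/-! ### absolute value of the character -/

theorem exists_pow_eqv {m : ℕ} (hm : m ≠ 0) {I : Ideal (𝓞 K)} (hI : Cop m I) :
    ∃ a b : ℕ, b ≠ 0 ∧ Eqv m (I ^ a) (I ^ (a + b)) := by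
  have hc : ∀ n : ℕ, Cop m (I ^ n) := by
    intro n
    induction n with
    | zero => rw [pow_zero]; exact cop_top m
    | succ n ih => rw [pow_succ]; exact cop_mul.2 ⟨ih, hI⟩
  have := finite_cls (K := K) m hm
  obtain ⟨a, b, hab, h⟩ := Finite.exists_ne_map_eq_of_infinite
    (fun n : ℕ => (Quotient.mk (clsSetoid K m) ⟨I ^ n, hc n⟩))
  have h1 : Eqv m (I ^ a) (I ^ b) := Quotient.exact h
  rcases lt_or_gt_of_ne hab with h2 | h2
  · refine ⟨a, b - a, by omega, ?_⟩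
    rwa [Nat.add_sub_cancel' h2.le]
  · refine ⟨b, a - b, by omega, ?_⟩
    rw [Nat.add_sub_cancel' h2.le]
    exact h1.symm

theorem HC.norm_psi {m : ℕ} (hm : m ≠ 0) (H : HC K m) (h2 : Module.finrank ℚ K = 2)
    (σ : K →+* ℂ) (hσ : ¬ ComplexEmbedding.IsReal σ) {I : Ideal (𝓞 K)} (hI : Cop m I) :
    ‖σ (H.psi I)‖ = (Ideal.absNorm I : ℝ) := by
  obtain ⟨a, b, hb, x, y, hx, hy, cx, cy, h⟩ := exists_pow_eqv hm hI
  have hpI : H.psi I ≠ 0 := (H.ne I).2 hI
  have hp0 : 0 < ‖σ (H.psi I)‖ := by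
    rw [norm_pos_iff]
    exact (map_ne_zero σ).2 hpI
  have hN0 : 0 < (Ideal.absNorm I : ℝ) := by
    rw [Nat.cast_pos, Nat.pos_iff_ne_zero, Ne, Ideal.absNorm_eq_zero_iff]
    exact hI.1
  have h3 := congrArg (fun J => ‖σ (H.psi J)‖) h
  have h4 := congrArg (fun J => ((Ideal.absNorm J : ℕ) : ℝ)) h
  simp only [map_mul, map_pow, norm_mul, norm_pow, H.val x hx cx, H.val y hy cy, Nat.cast_mul,
    Nat.cast_pow, absNorm_span_eq h2 σ hσ] at h3 h4
  have hx0 : 0 < ‖σ x‖ := by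
    rw [norm_pos_iff]
    refine (map_ne_zero σ).2 ?_
    exact RingOfIntegers.coe_ne_zero_iff.2 (cop_span_iff.1 cx).1
  have hy0 : 0 < ‖σ y‖ := by
    rw [norm_pos_iff]
    refine (map_ne_zero σ).2 ?_
    exact RingOfIntegers.coe_ne_zero_iff.2 (cop_span_iff.1 cy).1
  rw [pow_add, ← mul_assoc] at h3 h4
  have e1 : ‖σ x‖ ^ 2 = ‖σ y‖ ^ 2 * ‖σ (H.psi I)‖ ^ b := by
    have h5 : ‖σ x‖ ^ 2 * ‖σ (H.psi I)‖ ^ a =
        (‖σ y‖ ^ 2 * ‖σ (H.psi I)‖ ^ b) * ‖σ (H.psi I)‖ ^ a := by rw [h3]; ring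
    exact mul_right_cancel₀ (pow_pos hp0 a).ne' h5
  have e2 : ‖σ x‖ ^ 2 = ‖σ y‖ ^ 2 * (Ideal.absNorm I : ℝ) ^ b := by
    have h5 : ‖σ x‖ ^ 2 * (Ideal.absNorm I : ℝ) ^ a =
        (‖σ y‖ ^ 2 * (Ideal.absNorm I : ℝ) ^ b) * (Ideal.absNorm I : ℝ) ^ a := by rw [h4]; ring
    exact mul_right_cancel₀ (pow_pos hN0 a).ne' h5
  have e3 : ‖σ (H.psi I)‖ ^ b = (Ideal.absNorm I : ℝ) ^ b := by
    apply mul_left_cancel₀ (pow_pos hy0 2).ne'
    rw [← e1, ← e2]
  exact (pow_left_inj₀ hp0.le hN0.le hb).1 e3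

/-! ### the two functions -/

/-- `σ(z)² |σ(z)|^(-2s)` -/
noncomputable def ff (σ : K →+* ℂ) (s : ℂ) (z : 𝓞 K) : ℂ :=
  σ z ^ 2 / ((‖σ z‖ ^ 2 : ℝ) : ℂ) ^ s

/-- `σ(ψ(I)) N(I)^(-s)` -/
noncomputable def gg (σ : K →+* ℂ) {m : ℕ} (H : HC K m) (s : ℂ) (I : Ideal (𝓞 K)) : ℂ :=
  σ (H.psi I) / ((Ideal.absNorm I : ℕ) : ℂ) ^ s

/-- `σ(ψ(Q))⁻¹ N(Q)^s` -/
noncomputable def cc (σ : K →+* ℂ) {m : ℕ} (H : HC K m) (s : ℂ) (Q : Ideal (𝓞 K)) : ℂ :=
  (σ (H.psi Q))⁻¹ * ((Ideal.absNorm Q : ℕ) : ℂ) ^ s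

theorem ff_neg (σ : K →+* ℂ) (s : ℂ) (z : 𝓞 K) : ff σ s (-z) = ff σ s z := by
  have e : ((-z : 𝓞 K) : K) = -(z : K) := map_neg (algebraMap (𝓞 K) K) z
  rw [ff, ff, e, map_neg, norm_neg, neg_sq]

theorem ff_mul (σ : K →+* ℂ) (s : ℂ) (z w : 𝓞 K) : ff σ s (z * w) = ff σ s z * ff σ s w := by
  have e : ((z * w : 𝓞 K) : K) = (z : K) * w := map_mul (algebraMap (𝓞 K) K) z w
  rw [ff, ff, ff, e, map_mul, norm_mul, mul_pow, mul_pow, Complex.ofReal_mul,
    Complex.mul_cpow_ofReal_nonneg (by positivity) (by positivity), mul_div_mul_comm]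

theorem gg_eq_zero (σ : K →+* ℂ) {m : ℕ} (H : HC K m) (s : ℂ) {I : Ideal (𝓞 K)}
    (hI : ¬ Cop m I) : gg σ H s I = 0 := by
  have h : H.psi I = 0 := by
    by_contra h
    exact hI ((H.ne I).1 h)
  rw [gg, h, map_zero, zero_div]

theorem gg_eq (h2 : Module.finrank ℚ K = 2) (σ : K →+* ℂ)
    (hσ : ¬ ComplexEmbedding.IsReal σ) {m : ℕ} (H : HC K m) (s : ℂ) {I Q : Ideal (𝓞 K)}
    {z : 𝓞 K} (hz : InO m z) (cz : Cop m (Ideal.span {z})) (h : I * Q = Ideal.span {z}) :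
    gg σ H s I = cc σ H s Q * ff σ s z := by
  have hc := cop_mul.1 (h ▸ cz)
  have h1 : H.psi I * H.psi Q = (z : K) ^ 2 := by
    rw [← map_mul, h, H.val z hz cz]
  have h3 : (Ideal.absNorm I : ℝ) * (Ideal.absNorm Q : ℝ) = ‖σ z‖ ^ 2 := by
    rw [← absNorm_span_eq h2 σ hσ, ← h, map_mul, Nat.cast_mul]
  have hQ : σ (H.psi Q) ≠ 0 := (map_ne_zero σ).2 ((H.ne Q).2 hc.2)
  have hN : ((Ideal.absNorm Q : ℕ) : ℂ) ≠ 0 := by
    rw [Nat.cast_ne_zero, Ne, Ideal.absNorm_eq_zero_iff]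
    exact hc.2.1
  have hNs : ((Ideal.absNorm Q : ℕ) : ℂ) ^ s ≠ 0 := by
    rw [Ne, Complex.cpow_eq_zero_iff]
    exact fun h => hN h.1
  rw [gg, cc, ff, ← h3, ← map_pow, ← h1, map_mul, Complex.ofReal_mul,
    Complex.mul_cpow_ofReal_nonneg (by positivity) (by positivity)]
  push_cast
  field_simp

/-! ### the sum over the ideals -/

/-- the elements of `Q` in the order, prime to `m` -/
def TT (m : ℕ) (Q : Ideal (𝓞 K)) : Set (𝓞 K) :=
  {z | z ∈ Q ∧ InO m z ∧ Cop m (Ideal.span {z})}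

theorem sum_ideals (h2 : Module.finrank ℚ K = 2) (σ : K →+* ℂ)
    (hσ : ¬ ComplexEmbedding.IsReal σ) {m : ℕ} (H : HC K m) (s : ℂ) {J : Type*} [Fintype J]
    {Q : J → Ideal (𝓞 K)} (hQ : IsReps m Q)
    (hS : ∀ j, Summable (fun z : TT m (Q j) => ff σ s z)) :
    HasSum (gg σ H s) (1 / 2 * ∑ j, cc σ H s (Q j) * ∑' z : TT m (Q j), ff σ s z) := by
  classical
  have hd : ∀ p : (Σ j, TT m (Q j)), ∃ I : Ideal (𝓞 K), I * Q p.1 = Ideal.span {(p.2 : 𝓞 K)} := by
    intro p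
    have h1 := p.2.2.1
    rw [← Ideal.dvd_span_singleton] at h1
    obtain ⟨I, hI⟩ := h1
    exact ⟨I, by rw [hI, mul_comm]⟩
  choose φ hφ using hd
  have hg : ∀ p, gg σ H s (φ p) = cc σ H s (Q p.1) * ff σ s p.2 := fun p =>
    gg_eq h2 σ hσ H s p.2.2.2.1 p.2.2.2.2 (hφ p)
  -- the sum over the sigma type
  have hfib : ∀ j, HasSum (fun z : TT m (Q j) => gg σ H s (φ ⟨j, z⟩))
      (cc σ H s (Q j) * ∑' z : TT m (Q j), ff σ s z) := by
    intro j
    simp only [hg]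
    exact (hS j).hasSum.mul_left _
  have hsum : Summable (fun p => gg σ H s (φ p)) := by
    rw [← summable_norm_iff]
    rw [summable_sigma_of_nonneg (fun p => norm_nonneg _)]
    refine ⟨fun j => ?_, Summable.of_finite⟩
    exact (hfib j).summable.norm
  have h1 : HasSum (fun p => gg σ H s (φ p))
      (∑ j, cc σ H s (Q j) * ∑' z : TT m (Q j), ff σ s z) :=
    HasSum.sigma_of_hasSum (hasSum_fintype _) hfib hsum
  -- sum over the fibres of `φ`
  have h3 : HasSum (fun I => 2 * gg σ H s I)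
      (∑ j, cc σ H s (Q j) * ∑' z : TT m (Q j), ff σ s z) := by
    refine HasSum.sigma ((Equiv.hasSum_iff (Equiv.sigmaFiberEquiv φ)).2 h1) (fun I => ?_)
    have e1 : (fun c : {x // φ x = I} => ((fun p => gg σ H s (φ p)) ∘
        ⇑(Equiv.sigmaFiberEquiv φ)) ⟨I, c⟩) =
        (fun p => gg σ H s (φ p)) ∘ (Subtype.val : {x | φ x = I} → _) := by
      funext c
      rfl
    rw [e1]
    refine (hasSum_subtype_iff_indicator (s := {x | φ x = I})).2 ?_
    by_cases hI : Cop m I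
    · obtain ⟨j, ⟨z, hz, cz, hIz⟩, hj⟩ := hQ.2 I hI
      have hzQ : z ∈ Q j := by
        rw [← Ideal.dvd_span_singleton, ← hIz]
        exact dvd_mul_left _ _
      have hz0 : z ≠ 0 := (cop_span_iff.1 cz).1
      have hzz : z ∈ TT m (Q j) := ⟨hzQ, hz, cz⟩
      have hzz' : -z ∈ TT m (Q j) := ⟨(Q j).neg_mem hzQ, hz.neg, by
        rwa [Ideal.span_singleton_neg]⟩
      let p1 : (Σ j, TT m (Q j)) := ⟨j, ⟨z, hzz⟩⟩
      let p2 : (Σ j, TT m (Q j)) := ⟨j, ⟨-z, hzz'⟩⟩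
      have hQj : Q j ≠ 0 := (hQ.1 j).1
      have hp1 : φ p1 = I := by
        apply mul_right_cancel₀ hQj
        rw [hIz]
        exact hφ p1
      have hp2 : φ p2 = I := by
        apply mul_right_cancel₀ hQj
        rw [hIz, ← Ideal.span_singleton_neg]
        exact hφ p2
      have hp12 : p1 ≠ p2 := by
        intro h
        have h4 : z = -z := by
          have h5 := eq_of_heq (Sigma.mk.inj h).2
          exact congrArg Subtype.val h5
        have h5 : (2 : 𝓞 K) * z = 0 := by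
          linear_combination h4
        rcases mul_eq_zero.1 h5 with h6 | h6
        · exact two_ne_zero h6
        · exact hz0 h6
      have key : ∀ p, φ p = I → p = p1 ∨ p = p2 := by
        rintro ⟨k, ⟨y, hy1, hy2, hy3⟩⟩ hp
        have h4 : I * Q k = Ideal.span {y} := by
          rw [← hp]
          exact hφ ⟨k, ⟨y, hy1, hy2, hy3⟩⟩
        have hkj : k = j := hj k ⟨y, hy2, hy3, h4⟩
        subst hkj
        rw [hIz, Ideal.span_singleton_eq_span_singleton] at h4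
        obtain ⟨u, hu⟩ := h4
        have huO : InO m (u : 𝓞 K) := by
          refine InO.div hz (cop_span_iff.1 cz).2 ?_
          rw [hu]
          exact hy2
        rcases H.unit_eq u.isUnit huO with h5 | h5
        · left
          rw [h5, mul_one] at hu
          subst hu
          rfl
        · right
          rw [h5, mul_neg, mul_one] at hu
          subst hu
          rfl
      have h5 := hasSum_sum_of_ne_finset_zero (f := {x | φ x = I}.indicator
        (fun p => gg σ H s (φ p))) (s := {p1, p2}) (L := SummationFilter.unconditional _) (by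
          intro p hp
          rw [Set.indicator_of_notMem]
          intro h6
          rcases key p h6 with h7 | h7
          · exact hp (by rw [h7]; simp)
          · exact hp (by rw [h7]; simp))
      rw [Finset.sum_pair hp12, Set.indicator_of_mem (show p1 ∈ {x | φ x = I} from hp1),
        Set.indicator_of_mem (show p2 ∈ {x | φ x = I} from hp2)] at h5
      simp only [hp1, hp2] at h5
      rw [two_mul]
      exact h5
    · have h4 : {x | φ x = I}.indicator (fun p => gg σ H s (φ p)) = fun _ => 0 := by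
        funext p
        refine Set.indicator_of_notMem ?_ _
        intro hp
        apply hI
        have h5 := hφ p
        rw [show φ p = I from hp] at h5
        exact (cop_mul.1 (h5 ▸ p.2.2.2.2)).1
      rw [h4, gg_eq_zero σ H s hI, mul_zero]
      exact hasSum_zero
  have h4 := h3.mul_left (1 / 2)
  have e2 : (fun I => 1 / 2 * (2 * gg σ H s I)) = gg σ H s := by
    funext I
    ring
  rw [e2] at h4
  exact h4

end NWF
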