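import Pool.Agent.NWF.Conj
import Pool.Agent.NWF.Ser
import Pool.Agent.NWF.Uniq

/-!
# NWF/RatC: the coefficients `Σ_{N(I) = k} ψ(I)` are rational, `L(ψ, s)` is real for real `s`
-/

namespace NWF

open NumberField Module

variable {K : Type*} [Field K] [NumberField K]

theorem not_real {σ : K →+* ℂ} (hs : ∃ x, (σ x).im ≠ 0) : ¬ ComplexEmbedding.IsReal σ := by
  intro h
  obtain ⟨x, hx⟩ := hs
  apply hx
  have h1 := congrArg (fun f : K →+* ℂ => f x) h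
  simp only [ComplexEmbedding.conjugate_coe_eq] at h1
  exact Complex.conj_eq_iff_im.1 h1

/-- `|ψ(I)| = N(I)` -/
theorem abs_psi (hK : finrank ℚ K = 2) (σ : K →+* ℂ) (hs : ∃ x, (σ x).im ≠ 0) {m : ℕ}
    (hm : 0 < m) (h : HC K m) (I : Ideal (𝓞 K)) (hI : Cop m I) :
    ‖σ (h.psi I)‖ = Ideal.absNorm I :=
  h.norm_psi hm.ne' hK σ (not_real hs) hI

/-- a real element of an imaginary quadratic field is rational -/
theorem rat_of_real (hK : finrank ℚ K = 2) (σ : K →+* ℂ) (hs : ∃ x, (σ x).im ≠ 0) {x : K}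
    (hx : (σ x).im = 0) : ∃ a : ℚ, σ x = a := by
  classical
  obtain ⟨φ, ψ, hne, h1, h2, hu⟩ := embs hK σ hs
  have h3 := trace_eq_sum_embeddings (K := ℚ) ℂ (x := x)
  rw [hu, Finset.sum_pair hne, h1, h2, Complex.conj_eq_iff_im.2 hx] at h3
  refine ⟨Algebra.trace ℚ K x / 2, ?_⟩
  have h4 : ((Algebra.trace ℚ K x : ℚ) : ℂ) = σ x + σ x := by
    rw [← h3]
    rfl
  push_cast
  rw [h4]
  ring

section

variable (hK : finrank ℚ K = 2) (σ : K →+* ℂ) (hs : ∃ x, (σ x).im ≠ 0)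
  {m : ℕ} (h : HC K m) (hn : ∀ I, Cop m I → ‖σ (h.psi I)‖ = Ideal.absNorm I)

include hK hs hn

/-- the sum of `ψ(I)` over the ideals of norm `k` is rational -/
theorem coeff_rat (k : ℕ) (T : Finset (Ideal (𝓞 K))) (hT : ∀ I, I ∈ T ↔ Ideal.absNorm I = k) :
    ∃ a : ℚ, ∑ I ∈ T, σ (h.psi I) = a := by
  obtain ⟨c, c', hc, hc'⟩ := exists_conj hK σ hs
  have hc2 : ∀ z : 𝓞 K, σ ((c' z : 𝓞 K) : K) = (starRingEnd ℂ) (σ z) := fun z => by
    rw [hc', hc]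
  have h1 : (starRingEnd ℂ) (∑ I ∈ T, σ (h.psi I)) = ∑ I ∈ T, σ (h.psi I) := by
    rw [map_sum]
    refine Finset.sum_equiv (conjE c') (fun I => ?_) (fun I _ => ?_)
    · rw [hT, hT]
      show _ ↔ Ideal.absNorm (I.map c') = k
      rw [absNorm_map]
    · exact (conj_psi hK σ hs c' hc2 h hn I).symm
  rw [← map_sum] at h1 ⊢
  exact rat_of_real hK σ hs (Complex.conj_eq_iff_im.1 h1)

omit hK hs hn in
theorem div_eq {s : ℂ} (I : Ideal (𝓞 K)) :
    σ (h.psi I) / (Ideal.absNorm I : ℂ) ^ s = σ (h.psi I) * (Ideal.absNorm I : ℂ) ^ (-s) := by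
  rw [div_eq_mul_inv, ← Complex.cpow_neg]

/-- `L(ψ, s)` is real for real `s > 2` -/
theorem tsum_real {s : ℝ} (h2 : 2 < s) :
    (∑' I : Ideal (𝓞 K), σ (h.psi I) / (Ideal.absNorm I : ℂ) ^ (s : ℂ)).im = 0 := by
  have h3 := (summable_ser σ h hn (s := (s : ℂ)) (by simpa using h2)).of_norm.hasSum
  simp only [div_eq]
  exact hasSum_real hK σ hs h hn h3

omit hK hs in
theorem summable_div {s : ℂ} (h2 : 2 < s.re) :
    Summable fun I : Ideal (𝓞 K) => σ (h.psi I) / (Ideal.absNorm I : ℂ) ^ s := by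
  simp only [div_eq]
  exact (summable_ser σ h hn h2).of_norm

omit hK hs in
theorem tsum_div_ne_zero {s : ℂ} (h2 : 2 < s.re) :
    ∑' I : Ideal (𝓞 K), σ (h.psi I) / (Ideal.absNorm I : ℂ) ^ s ≠ 0 := by
  simp only [div_eq]
  exact ser_ne_zero σ h hn h2

end

/-- the coefficients of the newform are rational -/
theorem coef_rat (hK : finrank ℚ K = 2) (σ : K →+* ℂ) (hs : ∃ x, (σ x).im ≠ 0) {m : ℕ}
    (hm : 0 < m) (h : HC K m) (k : ℕ) :
    ∃ a : ℚ, ∑ᶠ I ∈ {I : Ideal (𝓞 K) | Ideal.absNorm I = k}, h.psi I = a := by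
  have hfin : {I : Ideal (𝓞 K) | Ideal.absNorm I = k}.Finite := Ideal.finite_setOfPred_absNorm_eq k
  obtain ⟨a, ha⟩ := coeff_rat hK σ hs h (fun I hI => abs_psi hK σ hs hm h I hI) k hfin.toFinset
    (fun I => by simp)
  refine ⟨a, ?_⟩
  rw [finsum_mem_eq_finite_toFinset_sum _ hfin]
  apply σ.injective
  rw [map_sum, ha, map_ratCast]

end NWF
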