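import Pool.Agent.NWF.Basis

/-!
# NWF: the structure of the ideals of the ring of integers of a quadratic field

PROOF. Write elements as `x + y w` (unique, `QB`), `w² = t w - n` (apply `QB.gen` to `w²`).
The set of the `y` with `x + y w ∈ I` for some `x` is a nonzero subgroup `e ℤ`, `e > 0` (it is nonzero:
for `0 ≠ z ∈ I` either `z` or `z w` works). Multiplying by `w`: `x w + y w² = - n y + (x + t y) w`, so
`e ∣ x + t y`, so `e ∣ x`: all elements of `I` are in `e 𝓞 K`. Let `b₀ + w` with `e (b₀ + w) ∈ I`.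
`I ∩ ℤ` is a nonzero subgroup of `ℤ` (it contains `absNorm I`), it is `e a ℤ`, `a > 0`; `b = b₀ mod a`.
Then `I = ℤ e a + ℤ e (b + w)`. `absNorm I` = the index of `I` (`Ideal.absNorm_apply`,
`Submodule.cardQuot`): it is the absolute value of the determinant of the matrix of the basis
`e a, e (b + w)` in the basis `1, w` (`Ideal.natAbs_det_basis_change` or
`Ideal.natAbs_det_equiv`), i.e. `e a * e = e² a`.
-/

open NumberField Ideal

namespace NWF

variable {K : Type*} [Field K] [NumberField K]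

/-- a subgroup of `ℤ` which contains a nonzero element has a positive generator -/
private lemma sub_gen (P : ℤ → Prop) (h0 : P 0) (hadd : ∀ x y, P x → P y → P (x + y))
    (hneg : ∀ x, P x → P (-x)) {z : ℤ} (hz : P z) (hz0 : z ≠ 0) :
    ∃ g : ℤ, 0 < g ∧ ∀ x, P x ↔ g ∣ x := by
  let S : AddSubgroup ℤ :=
    { carrier := {x | P x}
      zero_mem' := h0
      add_mem' := fun {a b} ha hb => hadd a b ha hb
      neg_mem' := fun {a} ha => hneg a ha }
  obtain ⟨g, hg⟩ := Int.subgroup_cyclic S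
  have hS : ∀ x, P x ↔ g ∣ x := by
    intro x
    have : x ∈ S ↔ g ∣ x := by
      rw [hg, AddSubgroup.mem_closure_singleton]
      constructor
      · rintro ⟨n, rfl⟩
        exact ⟨n, by simp [mul_comm]⟩
      · rintro ⟨n, rfl⟩
        exact ⟨n, by simp [mul_comm]⟩
    exact this
  have hg0 : g ≠ 0 := by
    rintro rfl
    exact hz0 (zero_dvd_iff.1 ((hS z).1 hz))
  refine ⟨|g|, abs_pos.2 hg0, fun x => ?_⟩
  rw [hS, abs_dvd]

theorem ideal_struct {w : 𝓞 K} (hw : QB w) (I : Ideal (𝓞 K)) (hI : I ≠ ⊥) :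
    ∃ e a b : ℤ, 0 < e ∧ 0 < a ∧ 0 ≤ b ∧ b < a ∧
      (∀ x y : ℤ, (x : 𝓞 K) + y * w ∈ I ↔ ∃ k l : ℤ, x = e * (a * k + b * l) ∧ y = e * l) ∧
      (absNorm I : ℤ) = e ^ 2 * a := by
  classical
  have huniq : ∀ x y x' y' : ℤ, (x : 𝓞 K) + y * w = x' + y' * w → x = x' ∧ y = y' := by
    intro x y x' y' h
    have := hw.ind (x - x') (y - y') (by
      push_cast
      linear_combination h)
    exact ⟨by linarith [this.1], by linarith [this.2]⟩
  obtain ⟨n, t, hwt⟩ := hw.gen (w * w)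
  have hmulw : ∀ x y : ℤ, ((x : 𝓞 K) + y * w) * w = ((n * y : ℤ) : 𝓞 K) + ((x + t * y : ℤ) : 𝓞 K) * w := by
    intro x y
    push_cast
    linear_combination (y : 𝓞 K) * hwt
  have hw0 : w ≠ 0 := by
    rintro rfl
    have := (hw.ind 0 1 (by simp)).2
    omega
  -- the second coordinates
  obtain ⟨z, hzI, hz0⟩ := Submodule.exists_mem_ne_zero_of_ne_bot hI
  obtain ⟨zx, zy, hz⟩ := hw.gen z
  have hex : ∃ x y : ℤ, (x : 𝓞 K) + y * w ∈ I ∧ y ≠ 0 := by
    by_cases hy : zy = 0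
    · refine ⟨n * zy, zx + t * zy, ?_, ?_⟩
      · rw [← hmulw, ← hz]
        exact I.mul_mem_right _ hzI
      · rw [hy, mul_zero, add_zero]
        rintro rfl
        apply hz0
        rw [hz, hy]
        simp
    · exact ⟨zx, zy, by rw [← hz]; exact hzI, hy⟩
  obtain ⟨x1, y1, h1, hy1⟩ := hex
  obtain ⟨e, he, hE⟩ := sub_gen (fun y => ∃ x : ℤ, (x : 𝓞 K) + y * w ∈ I) ⟨0, by simp⟩
    (by
      rintro a b ⟨x, hx⟩ ⟨x', hx'⟩
      refine ⟨x + x', ?_⟩
      have e1 : ((x + x' : ℤ) : 𝓞 K) + ((a + b : ℤ) : 𝓞 K) * w =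
          (x + a * w) + (x' + b * w) := by push_cast; ring
      rw [e1]
      exact I.add_mem hx hx')
    (by
      rintro a ⟨x, hx⟩
      refine ⟨-x, ?_⟩
      have e1 : ((-x : ℤ) : 𝓞 K) + ((-a : ℤ) : 𝓞 K) * w = -(x + a * w) := by push_cast; ring
      rw [e1]
      exact I.neg_mem hx)
    (z := y1) ⟨x1, h1⟩ hy1
  have hdx : ∀ x y : ℤ, (x : 𝓞 K) + y * w ∈ I → e ∣ x ∧ e ∣ y := by
    intro x y h
    have hy : e ∣ y := (hE y).1 ⟨x, h⟩
    have hx : e ∣ x + t * y := by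
      refine (hE _).1 ⟨n * y, ?_⟩
      rw [← hmulw]
      exact I.mul_mem_right _ h
    refine ⟨?_, hy⟩
    have := dvd_sub hx (Dvd.dvd.mul_left hy t)
    simpa using this
  obtain ⟨xe, hxe⟩ := (hE e).2 dvd_rfl
  obtain ⟨b0, hb0⟩ := (hdx _ _ hxe).1
  -- the integers in `I`
  have hN : ((absNorm I : ℕ) : 𝓞 K) ∈ I := absNorm_mem I
  have hN0 : (absNorm I : ℤ) ≠ 0 := by
    have := (absNorm_eq_zero_iff (I := I)).not.2 hI
    exact_mod_cast this
  obtain ⟨g, hg, hG⟩ := sub_gen (fun x => (x : 𝓞 K) ∈ I) (by simp)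
    (fun x y hx hy => by
      push_cast
      exact I.add_mem hx hy)
    (fun x hx => by
      push_cast
      exact I.neg_mem hx) (z := (absNorm I : ℤ)) (by
      simpa using hN) hN0
  obtain ⟨a, ha⟩ : e ∣ g := by
    have h2 : ((g : ℤ) : 𝓞 K) + ((0 : ℤ) : 𝓞 K) * w ∈ I := by
      have := (hG g).2 dvd_rfl
      simpa using this
    exact (hdx _ _ h2).1
  have ha0 : 0 < a := by
    by_contra hcon
    push Not at hcon
    have : g ≤ 0 := by rw [ha]; exact mul_nonpos_of_nonneg_of_nonpos he.le hcon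
    omega
  set b : ℤ := b0 % a with hb
  obtain ⟨q, hq⟩ : ∃ q : ℤ, b0 = b + a * q := ⟨b0 / a, by rw [hb]; exact (Int.emod_add_mul_ediv b0 a).symm⟩
  have hga : ((e * a : ℤ) : 𝓞 K) ∈ I := by
    rw [← ha]
    exact (hG g).2 dvd_rfl
  have hbw : ((e * b : ℤ) : 𝓞 K) + ((e : ℤ) : 𝓞 K) * w ∈ I := by
    have e1 : ((e * b : ℤ) : 𝓞 K) + ((e : ℤ) : 𝓞 K) * w =
        ((xe : 𝓞 K) + e * w) - q * ((e * a : ℤ) : 𝓞 K) := by
      rw [hb0, hq]; push_cast; ring
    rw [e1]
    exact I.sub_mem hxe (I.mul_mem_left _ hga)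
  have hmem : ∀ x y : ℤ, (x : 𝓞 K) + y * w ∈ I ↔
      ∃ k l : ℤ, x = e * (a * k + b * l) ∧ y = e * l := by
    intro x y
    constructor
    · intro h
      obtain ⟨l, hl⟩ := (hdx _ _ h).2
      have h3 : ((x - e * b * l : ℤ) : 𝓞 K) ∈ I := by
        have e1 : ((x - e * b * l : ℤ) : 𝓞 K) =
            ((x : 𝓞 K) + y * w) - l * (((e * b : ℤ) : 𝓞 K) + ((e : ℤ) : 𝓞 K) * w) := by
          rw [hl]; push_cast; ring
        rw [e1]
        exact I.sub_mem h (I.mul_mem_left _ hbw)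
      obtain ⟨k, hk⟩ := (hG _).1 h3
      refine ⟨k, l, ?_, hl⟩
      rw [ha] at hk
      linear_combination hk
    · rintro ⟨k, l, rfl, rfl⟩
      have e1 : ((e * (a * k + b * l) : ℤ) : 𝓞 K) + ((e * l : ℤ) : 𝓞 K) * w =
          k * ((e * a : ℤ) : 𝓞 K) + l * (((e * b : ℤ) : 𝓞 K) + ((e : ℤ) : 𝓞 K) * w) := by
        push_cast; ring
      rw [e1]
      exact I.add_mem (I.mul_mem_left _ hga) (I.mul_mem_left _ hbw)
  refine ⟨e, a, b, he, ha0, Int.emod_nonneg _ ha0.ne', Int.emod_lt_of_pos _ ha0, hmem, ?_⟩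
  -- the norm
  let fB : (Fin 2 → ℤ) →ₗ[ℤ] 𝓞 K :=
    { toFun := fun v => (v 0 : 𝓞 K) + (v 1 : 𝓞 K) * w
      map_add' := fun v v' => by simp; ring
      map_smul' := fun c v => by simp; ring }
  have hfB : Function.Bijective fB := by
    constructor
    · intro v v' h
      obtain ⟨h0, h1⟩ := huniq _ _ _ _ (show (v 0 : 𝓞 K) + (v 1 : 𝓞 K) * w = v' 0 + v' 1 * w from h)
      funext i
      fin_cases i
      · exact h0
      · exact h1
    · intro z
      obtain ⟨x, y, hz⟩ := hw.gen z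
      exact ⟨![x, y], by simp [fB, hz]⟩
  let B : Module.Basis (Fin 2) ℤ (𝓞 K) := Module.Basis.ofEquivFun (LinearEquiv.ofBijective fB hfB).symm
  have hI' : ∀ v : Fin 2 → ℤ, (v 0 : 𝓞 K) * ((e * a : ℤ) : 𝓞 K) +
      (v 1 : 𝓞 K) * (((e * b : ℤ) : 𝓞 K) + ((e : ℤ) : 𝓞 K) * w) ∈ I := fun v =>
    I.add_mem (I.mul_mem_left _ hga) (I.mul_mem_left _ hbw)
  let fI : (Fin 2 → ℤ) →ₗ[ℤ] I :=
    { toFun := fun v => ⟨_, hI' v⟩
      map_add' := fun v v' => by
        apply Subtype.ext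
        simp
        ring
      map_smul' := fun c v => by
        apply Subtype.ext
        simp
        ring }
  have hfI : Function.Bijective fI := by
    constructor
    · intro v v' h
      have h' : (v 0 : 𝓞 K) * ((e * a : ℤ) : 𝓞 K) +
          (v 1 : 𝓞 K) * (((e * b : ℤ) : 𝓞 K) + ((e : ℤ) : 𝓞 K) * w) =
          (v' 0 : 𝓞 K) * ((e * a : ℤ) : 𝓞 K) +
          (v' 1 : 𝓞 K) * (((e * b : ℤ) : 𝓞 K) + ((e : ℤ) : 𝓞 K) * w) := congrArg Subtype.val h
      obtain ⟨h0, h1⟩ := huniq (v 0 * (e * a) + v 1 * (e * b)) (v 1 * e)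
        (v' 0 * (e * a) + v' 1 * (e * b)) (v' 1 * e) (by push_cast at h' ⊢; linear_combination h')
      have h1' : v 1 = v' 1 := by
        exact mul_right_cancel₀ he.ne' h1
      have h0' : v 0 = v' 0 := by
        rw [h1'] at h0
        have : v 0 * (e * a) = v' 0 * (e * a) := by linarith
        exact mul_right_cancel₀ (mul_pos he ha0).ne' this
      funext i
      fin_cases i
      · exact h0'
      · exact h1'
    · rintro ⟨z, hz⟩
      obtain ⟨x, y, rfl⟩ := hw.gen z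
      obtain ⟨k, l, hk, hl⟩ := (hmem x y).1 hz
      refine ⟨![k, l], Subtype.ext ?_⟩
      simp only [fI, LinearMap.coe_mk, AddHom.coe_mk, Matrix.cons_val_zero, Matrix.cons_val_one]
      rw [hk, hl]
      push_cast
      ring
  let bI : Module.Basis (Fin 2) ℤ I := Module.Basis.ofEquivFun (LinearEquiv.ofBijective fI hfI).symm
  have hdet := Ideal.natAbs_det_basis_change B I bI
  have hb0' : ∀ j, bI j = fI (Pi.single j 1) := by
    intro j
    simp [bI, Module.Basis.coe_ofEquivFun]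
  have hBr : ∀ z : Fin 2 → ℤ, B.repr (fB z) = Finsupp.equivFunOnFinite.symm z := by
    intro z
    have : (B.equivFun (fB z)) = z := by
      simp only [B, Module.Basis.equivFun_ofEquivFun]
      exact (LinearEquiv.ofBijective fB hfB).symm_apply_apply z
    ext i
    have h := congrFun this i
    simpa using h
  have hv0 : ((bI 0 : I) : 𝓞 K) = fB ![e * a, 0] := by
    rw [hb0']
    simp [fI, fB]
  have hv1 : ((bI 1 : I) : 𝓞 K) = fB ![e * b, e] := by
    rw [hb0']
    simp [fI, fB]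
  have hM : B.toMatrix ((↑) ∘ bI : Fin 2 → 𝓞 K) = !![e * a, e * b; 0, e] := by
    ext i j
    rw [Module.Basis.toMatrix_apply]
    fin_cases j
    · simp only [Function.comp, Fin.zero_eta, hv0, hBr]
      fin_cases i <;> simp
    · simp only [Function.comp, Fin.mk_one, hv1, hBr]
      fin_cases i <;> simp
  rw [Module.Basis.det_apply, hM, Matrix.det_fin_two_of] at hdet
  rw [← hdet]
  have hp : e * a * e - e * b * 0 = e ^ 2 * a := by ring
  rw [hp]
  exact Int.natAbs_of_nonneg (by positivity)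

end NWF
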